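import Pool.Agent.Q60.RK.Main

/-!
# The equality of the torsors implies connectedness (over `K`)
-/

set_option linter.unusedSectionVars false

namespace Pool.Agent.Q60.RK

open Matrix Module Pool.Agent.Q50.LR Pool.Agent.Q60.GL Pool.Agent.Q60.TD Pool.Agent.Q60.RB

variable {κ : Type} [Fintype κ] [DecidableEq κ] {K : Type} [Field K] [Algebra K ℂ]
  {P : GL κ ℂ} {C : ∀ t : Con, Set (Ix κ t → K)}

/-- A vector lies in the complex span of a rational space if all its forms lie in the space. -/
lemma mem_cspan {B : Type} [Fintype B] [DecidableEq B] {N : Submodule K (B → K)} {x : B → ℂ}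
    (h : ∀ l : ℂ →ₗ[K] K, (fun i => l (x i)) ∈ N) : x ∈ cspan N := by
  have h1 : bcS ℂ N ≤ cspan N := by
    rw [bcS, Submodule.span_le]
    rintro _ ⟨v, hv, rfl⟩
    exact cspan_mem hv
  exact h1 (mem_bcS h)

/-- Derivatives of matrix coefficients along exponentials. -/
lemma hasDeriv_coeff {B : Type} [Fintype B] [DecidableEq B] (b w : B → ℂ) (Z : Matrix B B ℂ) :
    HasDerivAt (fun s : ℂ => b ⬝ᵥ (ex Z s *ᵥ w)) (b ⬝ᵥ (Z *ᵥ w)) 0 := by
  have h8 : HasDerivAt (fun s : ℂ => ∑ i, b i * ∑ j, ex Z s i j * w j)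
      (∑ i, b i * ∑ j, (ex Z 0 * Z) i j * w j) 0 :=
    HasDerivAt.fun_sum fun i _ => (HasDerivAt.fun_sum fun j _ =>
      (hasDeriv_ex _ 0 i j).mul_const _).const_mul _
  rw [ex_zero, Matrix.one_mul] at h8
  exact h8

/-- The products of the derivatives. -/
def prodL (t : Con) (L : List (Matrix κ κ K)) : Matrix (Ix κ t) (Ix κ t) K :=
  (L.map fun X => der X t).prod

lemma prodL_append (t : Con) (L : List (Matrix κ κ K)) (X : Matrix κ κ K) :
    prodL t (L ++ [X]) = prodL t L * der X t := by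
  rw [prodL, prodL, List.map_append, List.prod_append, List.map_singleton, List.prod_singleton]

/-- The largest rational subspace of the kernel of `a` which is stable under the Lie algebra. -/
def Jr (C : ∀ t : Con, Set (Ix κ t → K)) (t : Con) (a : Ix κ t → K) : Submodule K (Ix κ t → K) where
  carrier := {v | ∀ L : List (Matrix κ κ K), (∀ X ∈ L, X ∈ lieG C) → a ⬝ᵥ (prodL t L *ᵥ v) = 0}
  add_mem' {x y} hx hy L hL := by rw [Matrix.mulVec_add, dotProduct_add, hx L hL, hy L hL, add_zero]
  zero_mem' L _ := by rw [Matrix.mulVec_zero, dotProduct_zero]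
  smul_mem' c x hx L hL := by rw [Matrix.mulVec_smul, dotProduct_smul, hx L hL, smul_zero]

lemma Jr_stab {t : Con} {a : Ix κ t → K} {X : Matrix κ κ K} (hX : X ∈ lieG C) {v : Ix κ t → K}
    (hv : v ∈ Jr C t a) : der X t *ᵥ v ∈ Jr C t a := by
  intro L hL
  rw [Matrix.mulVec_mulVec, ← prodL_append]
  refine hv _ fun Y hY => ?_
  rcases List.mem_append.1 hY with h | h
  · exact hL Y h
  · rw [List.mem_singleton.1 h]
    exact hX

lemma form_dot {B : Type} [Fintype B] (l : ℂ →ₗ[K] K) (a : B → K) (x : B → ℂ) :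
    a ⬝ᵥ (fun i => l (x i)) = l ((fun i => algebraMap K ℂ (a i)) ⬝ᵥ x) := by
  rw [dotProduct, dotProduct, map_sum]
  refine Finset.sum_congr rfl fun i _ => ?_
  have h1 : algebraMap K ℂ (a i) * x i = a i • x i := by
    rw [Algebra.smul_def]
  rw [h1, map_smul, smul_eq_mul]

lemma form_mulVec {B : Type} [Fintype B] (l : ℂ →ₗ[K] K) (M : Matrix B B K) (x : B → ℂ) :
    M *ᵥ (fun i => l (x i)) = fun i => l ((M.map (algebraMap K ℂ) *ᵥ x) i) := by
  funext i
  exact form_dot l (M i) x

/-- The complex vectors all of whose coefficients vanish. -/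
lemma Jr_of_zero {t : Con} {a : Ix κ t → K} {w : Ix κ t → ℂ}
    (hw : ∀ g ∈ groupK C, (fun i => algebraMap K ℂ (a i)) ⬝ᵥ (act (g : Matrix κ κ ℂ) t *ᵥ w) = 0)
    (l : ℂ →ₗ[K] K) : (fun i => l (w i)) ∈ Jr C t a := by
  intro L hL
  -- first the products of the derivatives over the complex numbers
  have key : ∀ (L : List (Matrix κ κ K)), (∀ X ∈ L, X ∈ lieG C) → ∀ w : Ix κ t → ℂ,
      (∀ g ∈ groupK C, (fun i => algebraMap K ℂ (a i)) ⬝ᵥ (act (g : Matrix κ κ ℂ) t *ᵥ w) = 0) →
      ∀ g ∈ groupK C, (fun i => algebraMap K ℂ (a i)) ⬝ᵥ (act (g : Matrix κ κ ℂ) t *ᵥ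
        ((prodL t L).map (algebraMap K ℂ) *ᵥ w)) = 0 := by
    intro L
    induction L with
    | nil =>
      intro _ w hw g hg
      have h1 : (prodL t ([] : List (Matrix κ κ K))).map (algebraMap K ℂ) = 1 := by
        rw [prodL, List.map_nil, List.prod_nil, Matrix.map_one _ (map_zero _) (map_one _)]
      rw [h1, Matrix.one_mulVec]
      exact hw g hg
    | cons X L ih =>
      intro hL w hw g hg
      have h1 : (prodL t (X :: L)).map (algebraMap K ℂ) =
          der (X.map (algebraMap K ℂ)) t * (prodL t L).map (algebraMap K ℂ) := by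
        rw [prodL, List.map_cons, List.prod_cons, Matrix.map_mul, der_map]
        rfl
      have hX : X ∈ lieG C := hL X List.mem_cons_self
      have h2 := ih (fun Y hY => hL Y (List.mem_cons_of_mem _ hY)) w hw
      set Z := der (X.map (algebraMap K ℂ)) t with hZ
      set y := (prodL t L).map (algebraMap K ℂ) *ᵥ w with hy
      have h3 : ∀ s : ℂ, ((fun i => algebraMap K ℂ (a i)) ᵥ* act (g : Matrix κ κ ℂ) t) ⬝ᵥ (ex Z s *ᵥ y) = 0 := by
        intro s
        have h4 := h2 (g * eu (X.map (algebraMap K ℂ)) s)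
          (Subgroup.mul_mem _ hg (eu_mem (fun r => kills_of_lieG hX r) s))
        rw [Units.val_mul, act_mul, eu_coe, ex, act_exp, der_smul, ← Matrix.mulVec_mulVec] at h4
        rw [← Matrix.dotProduct_mulVec]
        exact h4
      have h5 := hasDeriv_coeff ((fun i => algebraMap K ℂ (a i)) ᵥ* act (g : Matrix κ κ ℂ) t) y Z
      rw [show (fun s : ℂ => ((fun i => algebraMap K ℂ (a i)) ᵥ* act (g : Matrix κ κ ℂ) t) ⬝ᵥ
        (ex Z s *ᵥ y)) = fun _ => 0 from funext h3] at h5
      have h6 := h5.unique (hasDerivAt_const _ _)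
      rw [h1, ← Matrix.mulVec_mulVec, Matrix.dotProduct_mulVec]
      exact h6
  have h1 := key L hL w hw 1 (Subgroup.one_mem _)
  rw [Units.val_one, RB.act_one, Matrix.one_mulVec] at h1
  rw [form_mulVec, form_dot, h1, map_zero]

lemma Jr_dot {t : Con} {a : Ix κ t → K} {x : Ix κ t → ℂ} (hx : x ∈ cspan (Jr C t a)) :
    (fun i => algebraMap K ℂ (a i)) ⬝ᵥ x = 0 := by
  induction hx using Submodule.span_induction with
  | mem x h =>
    obtain ⟨v, hv, rfl⟩ := h
    have h1 := hv [] (fun X hX => absurd hX List.not_mem_nil)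
    rw [prodL, List.map_nil, List.prod_nil, Matrix.one_mulVec] at h1
    have h2 : (fun i => algebraMap K ℂ (a i)) ⬝ᵥ (fun i => algebraMap K ℂ (v i)) = algebraMap K ℂ (a ⬝ᵥ v) := by
      rw [dotProduct, dotProduct, map_sum]
      refine Finset.sum_congr rfl fun i _ => ?_
      rw [map_mul]
    rw [h2, h1, map_zero]
  | zero => rw [dotProduct_zero]
  | add x y _ _ hx hy => rw [dotProduct_add, hx, hy, add_zero]
  | smul c x _ hx => rw [dotProduct_smul, hx, smul_zero]

/-- The space spanned by `(1, v)` and the space `J`. -/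
def lineJ {t : Con} (v : Ix κ t → K) (J : Submodule K (Ix κ t → K)) :
    Submodule K (Ix κ (.sum .one t) → K) where
  carrier := {y | ∃ c : K, ∃ j ∈ J, y = (Sum.elim (fun _ => c) (c • v + j) : Unit ⊕ Ix κ t → K)}
  add_mem' := by
    rintro _ _ ⟨c, j, hj, rfl⟩ ⟨c', j', hj', rfl⟩
    refine ⟨c + c', j + j', J.add_mem hj hj', ?_⟩
    funext i
    rcases i with i | i
    · rfl
    · change c * v i + j i + (c' * v i + j' i) = (c + c') * v i + (j i + j' i)
      ring
  zero_mem' := by
    refine ⟨0, 0, J.zero_mem, ?_⟩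
    funext i
    rcases i with i | i
    · rfl
    · change (0 : K) = 0 * v i + 0
      ring
  smul_mem' := by
    rintro r _ ⟨c, j, hj, rfl⟩
    refine ⟨r * c, r • j, J.smul_mem r hj, ?_⟩
    funext i
    rcases i with i | i
    · rfl
    · change r * (c * v i + j i) = r * c * v i + r * j i
      ring

lemma cspan_lineJ {t : Con} {v : Ix κ t → K} {J : Submodule K (Ix κ t → K)}
    {y : Ix κ (.sum .one t) → ℂ} (hy : y ∈ cspan (lineJ v J)) : ∃ c : ℂ, ∃ j ∈ cspan J,
      y = (Sum.elim (fun _ => c) (c • (fun i => algebraMap K ℂ (v i)) + j) : Unit ⊕ Ix κ t → ℂ) := by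
  induction hy using Submodule.span_induction with
  | mem y h =>
    obtain ⟨_, ⟨c, j, hj, rfl⟩, rfl⟩ := h
    refine ⟨algebraMap K ℂ c, fun i => algebraMap K ℂ (j i), cspan_mem hj, ?_⟩
    funext i
    rcases i with i | i
    · rfl
    · change algebraMap K ℂ (c * v i + j i) =
        algebraMap K ℂ c * algebraMap K ℂ (v i) + algebraMap K ℂ (j i)
      rw [map_add, map_mul]
  | zero =>
    refine ⟨0, 0, Submodule.zero_mem _, ?_⟩
    funext i
    rcases i with i | i
    · rfl
    · change (0 : ℂ) = 0 * algebraMap K ℂ (v i) + 0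
      ring
  | add y z _ _ hy hz =>
    obtain ⟨c, j, hj, rfl⟩ := hy
    obtain ⟨c', j', hj', rfl⟩ := hz
    refine ⟨c + c', j + j', Submodule.add_mem _ hj hj', ?_⟩
    funext i
    rcases i with i | i
    · rfl
    · change c * algebraMap K ℂ (v i) + j i + (c' * algebraMap K ℂ (v i) + j' i) = (c + c') * algebraMap K ℂ (v i) + (j i + j' i)
      ring
  | smul r y _ hy =>
    obtain ⟨c, j, hj, rfl⟩ := hy
    refine ⟨r * c, r • j, Submodule.smul_mem _ r hj, ?_⟩
    funext i
    rcases i with i | i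
    · rfl
    · change r * (c * algebraMap K ℂ (v i) + j i) = r * c * algebraMap K ℂ (v i) + r * j i
      ring

/-- **If the torsors are equal, then the group of the classes is connected.** -/
theorem conn_of_torsor [IsAlgClosed K] (hC : AreK P C)
    (heq : torsorK K P = torsorOfK P C) : IsConnected (groupK C) := by
  intro H hH hHG hfin
  obtain ⟨u, hu1, hu0⟩ := indicator hH hfin
  obtain ⟨t, a, w, hw⟩ : ∃ (t : Con) (a : Ix κ t → K) (w : Ix κ t → ℂ), ∀ g : GL κ ℂ,
      MvPolynomial.eval (pt g) u = (fun i => algebraMap K ℂ (a i)) ⬝ᵥ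
        (act (g : Matrix κ κ ℂ) t *ᵥ w) := by
    obtain ⟨t, a, w, hw⟩ := poly_rep u
    have hK : CharZero K := (algebraMap K ℂ).charZero
    refine ⟨t, fun i => (a i : K), w, fun g => ?_⟩
    rw [hw g]
    congr 1
    funext i
    exact (map_ratCast (algebraMap K ℂ) (a i)).symm
  -- the derivatives of `w` have no coefficients
  have hder : ∀ X ∈ lieG C, ∀ g ∈ groupK C, (fun i => algebraMap K ℂ (a i)) ⬝ᵥ
      (act (g : Matrix κ κ ℂ) t *ᵥ (der (X.map (algebraMap K ℂ)) t *ᵥ w)) = 0 := by
    intro X hX g hg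
    set Z := der (X.map (algebraMap K ℂ)) t with hZ
    set b := (fun i => algebraMap K ℂ (a i)) ᵥ* act (g : Matrix κ κ ℂ) t with hb
    have h3 : ∀ s : ℂ, b ⬝ᵥ (ex Z s *ᵥ w) = 0 ∨ b ⬝ᵥ (ex Z s *ᵥ w) = 1 := by
      intro s
      have hmem : g * eu (X.map (algebraMap K ℂ)) s ∈ groupK C :=
        Subgroup.mul_mem _ hg (eu_mem (fun r => kills_of_lieG hX r) s)
      have h4 := hw (g * eu (X.map (algebraMap K ℂ)) s)
      rw [Units.val_mul, act_mul, eu_coe, ex, act_exp, der_smul, ← Matrix.mulVec_mulVec,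
        Matrix.dotProduct_mulVec] at h4
      have h5 : b ⬝ᵥ (ex Z s *ᵥ w) =
          MvPolynomial.eval (pt (g * eu (X.map (algebraMap K ℂ)) s)) u := h4.symm
      rw [h5]
      by_cases hmH : g * eu (X.map (algebraMap K ℂ)) s ∈ H
      · exact Or.inr (hu1 _ hmH)
      · exact Or.inl (hu0 _ hmem hmH)
    have h5 := hasDeriv_coeff b w Z
    have h6 := h5.mul h5
    have h7 : (fun s : ℂ => b ⬝ᵥ (ex Z s *ᵥ w)) * (fun s : ℂ => b ⬝ᵥ (ex Z s *ᵥ w)) =
        fun s : ℂ => b ⬝ᵥ (ex Z s *ᵥ w) := by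
      funext s
      rw [Pi.mul_apply]
      rcases h3 s with h | h
      · rw [h, mul_zero]
      · rw [h, mul_one]
    rw [h7] at h6
    have h8 := h6.unique h5
    rw [ex_zero, Matrix.one_mulVec] at h8
    have h9 := h3 0
    rw [ex_zero, Matrix.one_mulVec] at h9
    rw [Matrix.dotProduct_mulVec]
    change b ⬝ᵥ (Z *ᵥ w) = 0
    rcases h9 with h | h
    · rw [h, mul_zero, zero_mul, add_zero] at h8
      exact h8.symm
    · rw [h, mul_one, one_mul] at h8
      exact left_eq_add.1 h8.symm
  -- the coefficients of the forms of `w` are constant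
  have hconst : ∀ g ∈ groupK C, ∀ l : ℂ →ₗ[K] K, (fun i => algebraMap K ℂ (a i)) ⬝ᵥ
      (act (g : Matrix κ κ ℂ) t *ᵥ (fun i => algebraMap K ℂ (l (w i)))) =
        (fun i => algebraMap K ℂ (a i)) ⬝ᵥ (fun i => algebraMap K ℂ (l (w i))) := by
    intro g hg l
    obtain ⟨N', hN'⟩ := sub_of_stab (K := K) (P := P) (t := .sum .one t)
      (N := lineJ (fun i => l (w i)) (Jr C t a)) (by
        rintro X hX _ ⟨c, j, hj, rfl⟩
        have hXG := lieH_le hC hX
        refine ⟨0, c • (der X t *ᵥ fun i => l (w i)) + der X t *ᵥ j,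
          Submodule.add_mem _ (Submodule.smul_mem _ c ?_) (Jr_stab hXG hj), ?_⟩
        · rw [form_mulVec]
          refine Jr_of_zero (fun g hg => ?_) l
          have h1 := hder X hXG g hg
          rwa [der_map] at h1
        · have h1 : der X (.sum .one t) *ᵥ (Sum.elim (fun _ => c) (c • (fun i => l (w i)) + j) :
              Unit ⊕ Ix κ t → K) = (Sum.elim (fun _ => 0) (der X t *ᵥ
                (c • (fun i => l (w i)) + j)) : Unit ⊕ Ix κ t → K) := by
            change bl (0 : Matrix Unit Unit K) (der X t) *ᵥ _ = _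
            rw [bl, Matrix.fromBlocks_mulVec, Sum.elim_comp_inl, Sum.elim_comp_inr,
              Matrix.zero_mulVec, Matrix.zero_mulVec, Matrix.zero_mulVec, add_zero, zero_add]
            rfl
          rw [h1, Matrix.mulVec_add, Matrix.mulVec_smul, zero_smul, zero_add])
    have h1 : g * P ∈ torsorK K P := by
      rw [heq]
      exact mul_mem_torsorOf hg self_mem_torsorOf
    have h2 := h1 _ _ _ hN'
    have h3 : (act ((g * P : GL κ ℂ) : Matrix κ κ ℂ) (.sum .one t)).mulVecLin =
        (act (g : Matrix κ κ ℂ) (.sum .one t)).mulVecLin ∘ₗ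
          (act (P : Matrix κ κ ℂ) (.sum .one t)).mulVecLin := by
      rw [← Matrix.mulVecLin_mul, ← act_mul, Units.val_mul]
    rw [CarriesK, h3, Submodule.map_comp, hN'] at h2
    have h4 : lv (fun i => algebraMap K ℂ (l (w i))) ∈
        cspan (lineJ (fun i => l (w i)) (Jr C t a)) := by
      have h5 : (lv fun i => l (w i)) ∈ lineJ (fun i => l (w i)) (Jr C t a) := by
        refine ⟨1, 0, Submodule.zero_mem _, ?_⟩
        rw [one_smul, add_zero]
        rfl
      have h6 := cspan_mem h5
      rw [lv_map] at h6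
      exact h6
    have h5 : act (g : Matrix κ κ ℂ) (.sum .one t) *ᵥ lv (fun i => algebraMap K ℂ (l (w i))) ∈
        cspan (lineJ (fun i => l (w i)) (Jr C t a)) := by
      rw [← h2]
      exact ⟨_, h4, rfl⟩
    rw [act_lv] at h5
    obtain ⟨c, j, hj, h6⟩ := cspan_lineJ h5
    have hc : (1 : ℂ) = c := congrFun h6 (Sum.inl ())
    have h7 : act (g : Matrix κ κ ℂ) t *ᵥ (fun i => algebraMap K ℂ (l (w i))) =
        (fun i => algebraMap K ℂ (l (w i))) + j := by
      funext i
      have h8 := congrFun h6 (Sum.inr i)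
      rw [← hc, one_smul] at h8
      exact h8
    rw [h7, dotProduct_add, Jr_dot hj, add_zero]
  -- hence the coefficients of `w` are constant
  have hw1 : ∀ g ∈ groupK C, (fun i => algebraMap K ℂ (a i)) ⬝ᵥ (act (g : Matrix κ κ ℂ) t *ᵥ w) =
      (fun i => algebraMap K ℂ (a i)) ⬝ᵥ w := by
    intro g hg
    let U : Submodule K (Ix κ t → K) :=
      { carrier := {v | (fun i => algebraMap K ℂ (a i)) ⬝ᵥ (act (g : Matrix κ κ ℂ) t *ᵥ
          (fun i => algebraMap K ℂ (v i))) = (fun i => algebraMap K ℂ (a i)) ⬝ᵥ (fun i => algebraMap K ℂ (v i))}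
        add_mem' := by
          intro x y hx hy
          have h1 : (fun i => algebraMap K ℂ ((x + y) i)) = (fun i => algebraMap K ℂ (x i)) +
              fun i => algebraMap K ℂ (y i) := funext fun i => map_add _ _ _
          change _ = _
          rw [h1, Matrix.mulVec_add, dotProduct_add, dotProduct_add, hx, hy]
        zero_mem' := by
          have h1 : (fun i => algebraMap K ℂ ((0 : Ix κ t → K) i)) = 0 :=
            funext fun i => map_zero _
          change _ = _
          rw [h1, Matrix.mulVec_zero]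
        smul_mem' := by
          intro c x hx
          have h1 : (fun i => algebraMap K ℂ ((c • x) i)) = algebraMap K ℂ c • (fun i => algebraMap K ℂ (x i)) :=
            funext fun i => map_mul _ _ _
          change _ = _
          rw [h1, Matrix.mulVec_smul, dotProduct_smul, dotProduct_smul, hx] }
    have h1 : w ∈ cspan U := mem_cspan fun l => hconst g hg l
    have h2 : ∀ x ∈ cspan U, (fun i => algebraMap K ℂ (a i)) ⬝ᵥ (act (g : Matrix κ κ ℂ) t *ᵥ x) =
        (fun i => algebraMap K ℂ (a i)) ⬝ᵥ x := by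
      intro x hx
      induction hx using Submodule.span_induction with
      | mem x h =>
        obtain ⟨v, hv, rfl⟩ := h
        exact hv
      | zero => rw [Matrix.mulVec_zero]
      | add x y _ _ hx hy => rw [Matrix.mulVec_add, dotProduct_add, dotProduct_add, hx, hy]
      | smul c x _ hx => rw [Matrix.mulVec_smul, dotProduct_smul, dotProduct_smul, hx]
    exact h2 w h1
  refine le_antisymm hHG fun g hg => ?_
  by_contra hn
  have h1 := hw g
  rw [hu0 g hg hn, hw1 g hg] at h1
  have h2 := hw 1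
  rw [hu1 1 (Subgroup.one_mem _), Units.val_one, RB.act_one, Matrix.one_mulVec, ← h1] at h2
  exact one_ne_zero h2

end Pool.Agent.Q60.RK
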