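import Pool.Agent.Q60.RK.Core2

/-!
# The core of the argument for a scalar centre
-/

set_option linter.unusedSectionVars false

namespace Pool.Agent.Q60.RK

open Matrix Module Pool.Agent.Q60.TD Pool.Agent.Q60.GL Pool.Agent.Q60.RB

variable {κ : Type} [Fintype κ] [DecidableEq κ] {K : Type} [Field K]

/-- **The core of the argument.** -/
theorem core {𝔥 𝔤 : Submodule K (Matrix κ κ K)} (hle : 𝔥 ≤ 𝔤)
    (hbr : ∀ X ∈ 𝔥, ∀ Y ∈ 𝔥, X * Y - Y * X ∈ 𝔥)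
    (hproj : ∀ U : Submodule K (Matrix κ κ K), (∀ X ∈ 𝔥, ∀ Y ∈ U, X * Y - Y * X ∈ U) →
      ∃ e : Matrix κ κ K →ₗ[K] Matrix κ κ K, (∀ Y, e Y ∈ U) ∧ (∀ Y ∈ U, e Y = Y) ∧
        ∀ X ∈ 𝔤, ∀ Y, e (X * Y - Y * X) = X * e Y - e Y * X)
    (hZ : ∀ Z, (∀ X ∈ 𝔥, X * Z = Z * X) → ∀ X ∈ 𝔤, X * Z = Z * X)
    (hcen : ∀ X ∈ 𝔤, (∀ Y ∈ 𝔤, X * Y = Y * X) → ∃ c : K, X = c • 1)
    (htr : (1 : Matrix κ κ K) ∈ 𝔤 → ∃ X ∈ 𝔥, X.trace ≠ 0) : 𝔤 ≤ 𝔥 := by
  obtain ⟨e, he1, he2, he3⟩ := hproj 𝔥 hbr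
  -- the complement consists of scalars
  have hc : ∀ X ∈ 𝔤, ∃ c : K, X = e X + c • 1 := by
    intro X hX
    have hC : X - e X ∈ 𝔤 := 𝔤.sub_mem hX (hle (he1 X))
    have heC : e (X - e X) = 0 := by rw [map_sub, he2 _ (he1 X), sub_self]
    have hcomm : ∀ Y ∈ 𝔥, Y * (X - e X) = (X - e X) * Y := by
      intro Y hY
      have h1 := he3 Y (hle hY) (X - e X)
      rw [heC, Matrix.mul_zero, Matrix.zero_mul, sub_zero] at h1
      have h2 := he3 (X - e X) hC Y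
      rw [he2 Y hY] at h2
      have h3 : (X - e X) * Y - Y * (X - e X) = -(Y * (X - e X) - (X - e X) * Y) := by
        rw [neg_sub]
      rw [h3, map_neg, h1, neg_zero] at h2
      have h4 : Y * (X - e X) - (X - e X) * Y = 0 := neg_eq_zero.1 h2.symm
      exact sub_eq_zero.1 h4
    have h5 := hZ _ hcomm
    obtain ⟨c, hc⟩ := hcen _ hC fun Y hY => (h5 Y hY).symm
    exact ⟨c, by rw [← hc]; abel⟩
  by_contra hcon
  obtain ⟨X, hX, hXn⟩ := Set.not_subset.1 hcon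
  obtain ⟨c, hcX⟩ := hc X hX
  have hc0 : c ≠ 0 := by
    rintro rfl
    rw [zero_smul, add_zero] at hcX
    apply hXn
    rw [hcX]
    exact he1 X
  have h1g : (1 : Matrix κ κ K) ∈ 𝔤 := by
    have h1 : (1 : Matrix κ κ K) = c⁻¹ • (X - e X) := by
      have h2 : X - e X = c • 1 := by
        rw [sub_eq_iff_eq_add']
        exact hcX
      rw [h2, smul_smul, inv_mul_cancel₀ hc0, one_smul]
    rw [h1]
    exact 𝔤.smul_mem _ (𝔤.sub_mem hX (hle (he1 X)))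
  have h1h : (1 : Matrix κ κ K) ∉ 𝔥 := by
    intro h1
    apply hXn
    rw [hcX]
    exact 𝔥.add_mem (he1 X) (𝔥.smul_mem _ h1)
  -- the derived algebra
  let D : Submodule K (Matrix κ κ K) :=
    Submodule.span K {Z | ∃ X ∈ 𝔥, ∃ Y ∈ 𝔥, Z = X * Y - Y * X}
  have hD : ∀ X ∈ 𝔥, ∀ Y ∈ 𝔥, X * Y - Y * X ∈ D := fun X hX Y hY =>
    Submodule.subset_span ⟨X, hX, Y, hY, rfl⟩
  have hDh : D ≤ 𝔥 := by
    rw [Submodule.span_le]
    rintro _ ⟨X, hX, Y, hY, rfl⟩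
    exact hbr X hX Y hY
  obtain ⟨d, hd1, hd2, hd3⟩ := hproj D fun X hX Y hY => hD X hX Y (hDh hY)
  have hhD : 𝔥 ≤ D := by
    intro X hX
    have hX0 : X - d X ∈ 𝔥 := 𝔥.sub_mem hX (hDh (hd1 X))
    have hcom : ∀ Y ∈ 𝔤, (X - d X) * Y = Y * (X - d X) := by
      intro Y hY
      obtain ⟨r, hr⟩ := hc Y hY
      have h1 : Y * X - X * Y ∈ D := by
        have h2 : Y * X - X * Y = e Y * X - X * e Y := by
          conv_lhs => rw [hr]
          rw [Matrix.add_mul, Matrix.mul_add, Matrix.smul_mul, Matrix.mul_smul, Matrix.one_mul,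
            Matrix.mul_one]
          abel
        rw [h2]
        exact hD _ (he1 Y) _ hX
      have h3 := hd3 Y hY X
      rw [hd2 _ h1] at h3
      have h4 : Y * (X - d X) - (X - d X) * Y = (Y * X - X * Y) - (Y * d X - d X * Y) := by
        rw [Matrix.mul_sub, Matrix.sub_mul]
        abel
      rw [← h3, sub_self] at h4
      exact (sub_eq_zero.1 h4).symm
    obtain ⟨r, hr⟩ := hcen _ (hle hX0) hcom
    have hr0 : r = 0 := by
      by_contra hne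
      apply h1h
      have h1 : (1 : Matrix κ κ K) = r⁻¹ • (X - d X) := by
        rw [hr, smul_smul, inv_mul_cancel₀ hne, one_smul]
      rw [h1]
      exact 𝔥.smul_mem _ hX0
    rw [hr0, zero_smul] at hr
    rw [sub_eq_zero.1 hr]
    exact hd1 X
  obtain ⟨Z, hZ1, hZ2⟩ := htr h1g
  apply hZ2
  have h5 : D ≤ LinearMap.ker (Matrix.traceLinearMap κ K K) := by
    rw [Submodule.span_le]
    rintro _ ⟨X, _, Y, _, rfl⟩
    change Matrix.trace (X * Y - Y * X) = 0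
    rw [Matrix.trace_sub, Matrix.trace_mul_comm, sub_self]
  exact h5 (hhD hZ1)

end Pool.Agent.Q60.RK
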