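import Pool.Agent.Q60.RK.Eng

/-!
# The core of the argument for any centre
-/

set_option linter.unusedSectionVars false

namespace Pool.Agent.Q60.RK

open Matrix Module Pool.Agent.Q60.TD Pool.Agent.Q60.GL Pool.Agent.Q60.RB

variable {κ : Type} [Fintype κ] [DecidableEq κ] {K : Type} [Field K]

/-- The centre of the commutant of a set of matrices. -/
def IsCentral (𝔥 : Submodule K (Matrix κ κ K)) (c : Matrix κ κ K) : Prop :=
  (∀ X ∈ 𝔥, X * c = c * X) ∧ ∀ E : Matrix κ κ K, (∀ X ∈ 𝔥, X * E = E * X) → c * E = E * c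

variable {𝔥 𝔤 : Submodule K (Matrix κ κ K)}

lemma IsCentral.sub {a b : Matrix κ κ K} (ha : IsCentral 𝔥 a) (hb : IsCentral 𝔥 b) :
    IsCentral 𝔥 (a - b) := by
  refine ⟨fun X hX => ?_, fun E hE => ?_⟩
  · rw [Matrix.mul_sub, Matrix.sub_mul, ha.1 X hX, hb.1 X hX]
  · rw [Matrix.mul_sub, Matrix.sub_mul, ha.2 E hE, hb.2 E hE]

lemma IsCentral.one : IsCentral 𝔥 1 :=
  ⟨fun X _ => by rw [Matrix.mul_one, Matrix.one_mul],
    fun E _ => by rw [Matrix.mul_one, Matrix.one_mul]⟩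

lemma IsCentral.mul {a b : Matrix κ κ K} (ha : IsCentral 𝔥 a) (hb : IsCentral 𝔥 b) :
    IsCentral 𝔥 (a * b) := by
  refine ⟨fun X hX => ?_, fun E hE => ?_⟩
  · rw [← Matrix.mul_assoc, ha.1 X hX, Matrix.mul_assoc, hb.1 X hX, Matrix.mul_assoc]
  · rw [Matrix.mul_assoc, hb.2 E hE, ← Matrix.mul_assoc, ha.2 E hE, Matrix.mul_assoc]

lemma IsCentral.pow {a : Matrix κ κ K} (ha : IsCentral 𝔥 a) (n : ℕ) : IsCentral 𝔥 (a ^ n) := by
  induction n with
  | zero => rw [pow_zero]; exact IsCentral.one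
  | succ n ih => rw [pow_succ]; exact ih.mul ha

/-- **Central elements of the commutant of a semisimple action which are orthogonal to all central
elements vanish.** -/
lemma central_zero [CharZero K] (hss : SSon (MO (𝔥 : Set (Matrix κ κ K))) (⊤ : Submodule K (κ → K)))
    {u : Matrix κ κ K} (hu : IsCentral 𝔥 u)
    (ht : ∀ c, IsCentral 𝔥 c → (u * c).trace = 0) : u = 0 := by
  have hnil : IsNilpotent (Matrix.toLin' u) := by
    apply Pool.Agent.H914.isNilpotent_of_trace_pow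
    intro r
    rw [← Matrix.toLin'_pow, Matrix.trace_toLin'_eq, pow_succ']
    exact ht _ (hu.pow r)
  -- the kernel and its complement
  obtain ⟨W, _, hW, h1, h2⟩ := hss (LinearMap.ker (Matrix.toLin' u)) le_top (by
    rintro _ ⟨X, hX, rfl⟩ v hv
    have h3 : u *ᵥ v = 0 := hv
    change u *ᵥ (X *ᵥ v) = 0
    rw [Matrix.mulVec_mulVec, ← hu.1 X hX, ← Matrix.mulVec_mulVec, h3, Matrix.mulVec_zero])
  obtain ⟨p, hp1, hp2, hp3⟩ := exists_pr (W := W) (C := LinearMap.ker (Matrix.toLin' u))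
    (by rw [inf_comm]; exact h1)
  have hpX : ∀ X ∈ 𝔥, ∀ v, p (X *ᵥ v) = X *ᵥ p v := by
    intro X hX v
    have hv : v ∈ LinearMap.ker (Matrix.toLin' u) ⊔ W := by
      rw [h2]
      exact Submodule.mem_top
    obtain ⟨k, hk, w, hw, rfl⟩ := Submodule.mem_sup.1 hv
    have h3 : X *ᵥ k ∈ LinearMap.ker (Matrix.toLin' u) := by
      have h4 : u *ᵥ k = 0 := hk
      change u *ᵥ (X *ᵥ k) = 0
      rw [Matrix.mulVec_mulVec, ← hu.1 X hX, ← Matrix.mulVec_mulVec, h4, Matrix.mulVec_zero]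
    have h4 : X *ᵥ w ∈ W := hW _ ⟨X, hX, rfl⟩ w hw
    rw [Matrix.mulVec_add, map_add, map_add, hp2 _ h3, hp1 _ h4, hp2 _ hk, hp1 _ hw, zero_add,
      zero_add]
  have hpE : ∀ v, LinearMap.toMatrix' p *ᵥ v = p v := fun v => by
    rw [← Matrix.toLin'_apply, Matrix.toLin'_toMatrix']
  have hcom : ∀ X ∈ 𝔥, X * LinearMap.toMatrix' p = LinearMap.toMatrix' p * X := by
    intro X hX
    apply Matrix.toLin'.injective
    refine LinearMap.ext fun v => ?_
    rw [Matrix.toLin'_apply, Matrix.toLin'_apply, ← Matrix.mulVec_mulVec, ← Matrix.mulVec_mulVec,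
      hpE, hpE, hpX X hX]
  have hup : ∀ v, p (u *ᵥ v) = u *ᵥ p v := by
    intro v
    have h3 := hu.2 _ hcom
    rw [← hpE, Matrix.mulVec_mulVec, ← h3, ← Matrix.mulVec_mulVec, hpE]
  -- `u` maps everything to `W` and is injective there
  have huW : ∀ v, u *ᵥ v = u *ᵥ p v := by
    intro v
    have hv : v ∈ LinearMap.ker (Matrix.toLin' u) ⊔ W := by
      rw [h2]
      exact Submodule.mem_top
    obtain ⟨k, hk, w, hw, rfl⟩ := Submodule.mem_sup.1 hv
    have h4 : u *ᵥ k = 0 := hk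
    rw [map_add, hp2 _ hk, hp1 _ hw, zero_add, Matrix.mulVec_add, h4, zero_add]
  obtain ⟨n, hn⟩ := hnil
  have hker : ∀ (n : ℕ) (w : κ → K), w ∈ W → (u ^ n) *ᵥ w = 0 → w = 0 := by
    intro n
    induction n with
    | zero =>
      intro w _ h
      rwa [pow_zero, Matrix.one_mulVec] at h
    | succ n ih =>
      intro w hw h
      rw [pow_succ, ← Matrix.mulVec_mulVec] at h
      have h3 : u *ᵥ w ∈ W := by
        rw [← hp1 w hw, ← hup]
        exact hp3 _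
      have h4 := ih _ h3 h
      have h5 : w ∈ LinearMap.ker (Matrix.toLin' u) ⊓ W := ⟨h4, hw⟩
      rw [h1] at h5
      exact (Submodule.mem_bot K).1 h5
  have hn' : ∀ w : κ → K, (u ^ n) *ᵥ w = 0 := by
    intro w
    have h3 := LinearMap.congr_fun hn w
    rw [← Matrix.toLin'_pow, Matrix.toLin'_apply] at h3
    exact h3
  apply Matrix.toLin'.injective
  refine LinearMap.ext fun v => ?_
  rw [Matrix.toLin'_apply, huW, hker n (p v) (hp3 v) (hn' _), Matrix.mulVec_zero, map_zero]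
  rfl

/-- **The core of the argument.** -/
theorem core_any [CharZero K] (hle : 𝔥 ≤ 𝔤)
    (hbr : ∀ X ∈ 𝔥, ∀ Y ∈ 𝔥, X * Y - Y * X ∈ 𝔥)
    (hss : SSon (MO (𝔥 : Set (Matrix κ κ K))) (⊤ : Submodule K (κ → K)))
    (hproj : ∀ U : Submodule K (Matrix κ κ K), (∀ X ∈ 𝔥, ∀ Y ∈ U, X * Y - Y * X ∈ U) →
      ∃ e : Matrix κ κ K →ₗ[K] Matrix κ κ K, (∀ Y, e Y ∈ U) ∧ (∀ Y ∈ U, e Y = Y) ∧
        ∀ X ∈ 𝔤, ∀ Y, e (X * Y - Y * X) = X * e Y - e Y * X)
    (hZ : ∀ Z, (∀ X ∈ 𝔥, X * Z = Z * X) → ∀ X ∈ 𝔤, X * Z = Z * X)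
    (hT : ∀ X ∈ 𝔤, ∃ Y ∈ 𝔥, ∀ c, IsCentral 𝔥 c → (X * c).trace = (Y * c).trace) : 𝔤 ≤ 𝔥 := by
  obtain ⟨e, he1, he2, he3⟩ := hproj 𝔥 hbr
  -- the derived algebra
  let D : Submodule K (Matrix κ κ K) :=
    Submodule.span K {Z | ∃ X ∈ 𝔥, ∃ Y ∈ 𝔥, Z = X * Y - Y * X}
  have hD : ∀ X ∈ 𝔥, ∀ Y ∈ 𝔥, X * Y - Y * X ∈ D := fun X hX Y hY =>
    Submodule.subset_span ⟨X, hX, Y, hY, rfl⟩
  have hDh : D ≤ 𝔥 := by
    rw [Submodule.span_le]
    rintro _ ⟨X, hX, Y, hY, rfl⟩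
    exact hbr X hX Y hY
  obtain ⟨d, hd1, hd2, hd3⟩ := hproj D fun X hX Y hY => hD X hX Y (hDh hY)
  have hDt : ∀ c, IsCentral 𝔥 c → ∀ Y ∈ D, (Y * c).trace = 0 := by
    intro c hc Y hY
    induction hY using Submodule.span_induction with
    | mem Y h =>
      obtain ⟨A, hA, B, hB, rfl⟩ := h
      rw [Matrix.sub_mul, Matrix.trace_sub, Matrix.mul_assoc B A c, hc.1 A hA,
        ← Matrix.mul_assoc, Matrix.trace_mul_comm (B * c) A, Matrix.mul_assoc A B c, sub_self]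
    | zero => rw [Matrix.zero_mul, Matrix.trace_zero]
    | add A B _ _ hA hB => rw [Matrix.add_mul, Matrix.trace_add, hA, hB, add_zero]
    | smul r A _ hA => rw [Matrix.smul_mul, Matrix.trace_smul, hA, smul_zero]
  intro X hX
  have hu : X - e X ∈ 𝔤 := 𝔤.sub_mem hX (hle (he1 X))
  have heu : e (X - e X) = 0 := by rw [map_sub, he2 _ (he1 X), sub_self]
  have hcomm : ∀ Y ∈ 𝔥, Y * (X - e X) = (X - e X) * Y := by
    intro Y hY
    have h1 := he3 Y (hle hY) (X - e X)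
    rw [heu, Matrix.mul_zero, Matrix.zero_mul, sub_zero] at h1
    have h2 := he3 (X - e X) hu Y
    rw [he2 Y hY] at h2
    have h3 : (X - e X) * Y - Y * (X - e X) = -(Y * (X - e X) - (X - e X) * Y) := by
      rw [neg_sub]
    rw [h3, map_neg, h1, neg_zero] at h2
    have h4 : Y * (X - e X) - (X - e X) * Y = 0 := neg_eq_zero.1 h2.symm
    exact sub_eq_zero.1 h4
  have huc : IsCentral 𝔥 (X - e X) := ⟨hcomm, fun E hE => hZ E hE _ hu⟩
  obtain ⟨Y, hY, hYt⟩ := hT _ hu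
  have hY0 : Y - d Y ∈ 𝔥 := 𝔥.sub_mem hY (hDh (hd1 Y))
  have hYc : IsCentral 𝔥 (Y - d Y) := by
    refine ⟨fun W hW => ?_, fun E hE => hE _ hY0⟩
    have h3 := hd3 W (hle hW) Y
    rw [hd2 _ (hD W hW Y hY)] at h3
    have h4 : W * (Y - d Y) - (Y - d Y) * W = (W * Y - Y * W) - (W * d Y - d Y * W) := by
      rw [Matrix.mul_sub, Matrix.sub_mul]
      abel
    rw [← h3, sub_self] at h4
    exact sub_eq_zero.1 h4
  have hzero : X - e X - (Y - d Y) = 0 := by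
    refine central_zero hss (huc.sub hYc) fun c hc => ?_
    rw [Matrix.sub_mul, Matrix.trace_sub, hYt c hc, Matrix.sub_mul, Matrix.trace_sub,
      hDt c hc _ (hd1 Y), sub_zero, sub_self]
  have h1 : X = e X + (Y - d Y) := by
    rw [sub_eq_zero] at hzero
    rw [← hzero]
    abel
  rw [h1]
  exact 𝔥.add_mem (he1 X) hY0

end Pool.Agent.Q60.RK
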