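import Pool.Agent.Q60.RK.Stm

/-!
# The Lie algebra of a de Rham-Betti object

The rational matrices which stabilise all subobjects of all tensor constructions. The logarithmic
derivatives of the period matrix are complex combinations of them, so subobjects are the same as
stable rational subspaces and classes the same as rational vectors killed by the Lie algebra.
-/

set_option linter.unusedSectionVars false

namespace Pool.Agent.Q60.RK

open Matrix Module Pool.Agent.Q50.LR Pool.Agent.Q60.GL Pool.Agent.Q60.RB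

variable {κ : Type} [Fintype κ] [DecidableEq κ] {K : Type} [Field K] [Algebra K ℂ]

lemma cspan_form {B : Type} {N : Submodule K (B → K)} (l : ℂ →ₗ[K] K) {x : B → ℂ}
    (hx : x ∈ cspan N) : (fun i => l (x i)) ∈ N := by
  induction hx using Submodule.span_induction with
  | mem x h =>
    obtain ⟨v, hv, rfl⟩ := h
    have h1 : (fun i => l (algebraMap K ℂ (v i))) = l 1 • v := by
      funext i
      rw [Algebra.algebraMap_eq_smul_one, map_smul, Pi.smul_apply, smul_eq_mul, smul_eq_mul,
        mul_comm]
    rw [h1]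
    exact N.smul_mem _ hv
  | zero =>
    have h1 : (fun i : B => l ((0 : B → ℂ) i)) = 0 := funext fun i => map_zero l
    rw [h1]
    exact N.zero_mem
  | add x y _ _ hx hy =>
    have h1 : (fun i => l ((x + y) i)) = (fun i => l (x i)) + fun i => l (y i) :=
      funext fun i => map_add l _ _
    rw [h1]
    exact N.add_mem hx hy
  | smul c x hx' hx =>
    -- use the linear map `z ↦ l (c z)`
    clear hx
    revert l
    induction hx' using Submodule.span_induction with
    | mem x h =>
      intro l
      obtain ⟨v, hv, rfl⟩ := h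
      have h1 : (fun i => l ((c • fun i => algebraMap K ℂ (v i)) i)) = l c • v := by
        funext i
        change l (c * algebraMap K ℂ (v i)) = l c * v i
        rw [mul_comm c, ← Algebra.smul_def, map_smul, smul_eq_mul, mul_comm]
      rw [h1]
      exact N.smul_mem _ hv
    | zero =>
      intro l
      have h1 : (fun i : B => l ((c • (0 : B → ℂ)) i)) = 0 := by
        funext i
        change l (c * 0) = 0
        rw [mul_zero, map_zero]
      rw [h1]
      exact N.zero_mem
    | add x y _ _ hx hy =>
      intro l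
      have h1 : (fun i => l ((c • (x + y)) i)) = (fun i => l ((c • x) i)) +
          fun i => l ((c • y) i) := by
        funext i
        change l (c * (x i + y i)) = l (c * x i) + l (c * y i)
        rw [mul_add, map_add]
      rw [h1]
      exact N.add_mem (hx l) (hy l)
    | smul d x _ hx =>
      intro l
      have h1 : (fun i => l ((c • d • x) i)) =
          fun i => (l ∘ₗ (LinearMap.mulLeft K d)) ((c • x) i) := by
        funext i
        change l (c * (d * x i)) = l (d * (c * x i))
        rw [mul_left_comm]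
      rw [h1]
      exact hx _

lemma cspan_rat {B : Type} {N : Submodule K (B → K)} {v : B → K}
    (hv : (fun i => algebraMap K ℂ (v i)) ∈ cspan N) : v ∈ N := by
  obtain ⟨l, hl⟩ : ∃ l : ℂ →ₗ[K] K, l 1 = 1 := by
    obtain ⟨l, hl⟩ := (Algebra.linearMap K ℂ).exists_leftInverse_of_injective
      (LinearMap.ker_eq_bot.2 (algebraMap K ℂ).injective)
    refine ⟨l, ?_⟩
    have h1 := LinearMap.congr_fun hl 1
    simpa using h1
  have h1 := cspan_form l hv
  have h2 : (fun i => l (algebraMap K ℂ (v i))) = v := by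
    funext i
    have h3 : algebraMap K ℂ (v i) = (v i) • (1 : ℂ) := by
      rw [Algebra.smul_def, mul_one]
    rw [h3, map_smul, hl, smul_eq_mul, mul_one]
  rw [h2] at h1
  exact h1

lemma der_rat (δ : Derivation K ℂ ℂ) (q : K) : δ (algebraMap K ℂ q) = 0 := δ.map_algebraMap q

/-! ### The Lie algebra -/

section lie

variable (K) (P : GL κ ℂ)

/-- The Lie algebra of the de Rham-Betti group: the rational matrices which stabilise all
subobjects. -/
def lieH : Submodule K (Matrix κ κ K) where
  carrier := {X | ∀ (t : Con) (N' : Submodule K (Ix κ t → K)) (N : Submodule K (Ix κ t → K)),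
    CarriesK P t N' N → ∀ v ∈ N, der X t *ᵥ v ∈ N}
  add_mem' {X Y} hX hY t N' N h v hv := by
    rw [der_add, Matrix.add_mulVec]
    exact N.add_mem (hX t N' N h v hv) (hY t N' N h v hv)
  zero_mem' t N' N _ v _ := by
    rw [der_zero, Matrix.zero_mulVec]
    exact N.zero_mem
  smul_mem' c X hX t N' N h v hv := by
    rw [der_smul, Matrix.smul_mulVec]
    exact N.smul_mem _ (hX t N' N h v hv)

/-- The complex matrices which stabilise all subobjects. -/
def InC (X : Matrix κ κ ℂ) : Prop :=
  ∀ (t : Con) (N' : Submodule K (Ix κ t → K)) (N : Submodule K (Ix κ t → K)),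
    CarriesK P t N' N → ∀ x ∈ cspan N, der X t *ᵥ x ∈ cspan N

variable {K P}

lemma br_lieH {X Y : Matrix κ κ K} (hX : X ∈ lieH K P) (hY : Y ∈ lieH K P) :
    X * Y - Y * X ∈ lieH K P := by
  intro t N' N h v hv
  rw [der_br, Matrix.sub_mulVec, ← Matrix.mulVec_mulVec, ← Matrix.mulVec_mulVec]
  exact N.sub_mem (hX t N' N h _ (hY t N' N h v hv)) (hY t N' N h _ (hX t N' N h v hv))

/-- Complex matrices which stabilise all subobjects are combinations of rational ones. -/
theorem inC_span {X : Matrix κ κ ℂ} (hX : InC K P X) : X ∈ SpM ℂ (lieH K P) := by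
  refine mem_SpM fun l => ?_
  intro t N' N h v hv
  have h1 := cspan_form l (hX t N' N h _ (cspan_mem hv))
  have h2 : (fun i => l ((der X t *ᵥ fun i => algebraMap K ℂ (v i)) i)) =
      der (Matrix.of fun i j => l (X i j)) t *ᵥ v := by
    have h3 : der (Matrix.of fun i j => l (X i j)) t = (der X t).map l :=
      der_form l.toAddMonoidHom X t
    rw [h3]
    funext i
    rw [Matrix.mulVec, Matrix.mulVec, dotProduct, dotProduct, map_sum]
    refine Finset.sum_congr rfl fun j _ => ?_
    rw [mul_comm, ← Algebra.smul_def, map_smul, smul_eq_mul, mul_comm]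
    rfl
  rw [← h2]
  exact h1

/-- **The logarithmic derivatives of the period matrix stabilise all subobjects.** -/
theorem ldP_inC (δ : Derivation K ℂ ℂ) : InC K P (ldP δ P) := by
  intro t N' N h x hx
  have hx2 := hx
  rw [← h] at hx2
  obtain ⟨y, hy, rfl⟩ := hx2
  have h1 := der_act δ P t y
  have h2 : (fun i => δ ((act (P : Matrix κ κ ℂ) t *ᵥ y) i)) ∈ cspan N :=
    cspan_der δ (der_rat δ) hx
  have h3 : act (P : Matrix κ κ ℂ) t *ᵥ (fun i => δ (y i)) ∈ cspan N := by
    rw [← h]
    exact ⟨_, cspan_der δ (fun a => δ.map_algebraMap a) hy, rfl⟩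
  have h4 := Submodule.sub_mem _ h2 h3
  rw [h1, add_sub_cancel_right] at h4
  exact h4

theorem ldP_span (δ : Derivation K ℂ ℂ) : ldP δ P ∈ SpM ℂ (lieH K P) := inC_span (ldP_inC δ)

/-- Rational subspaces which are stable for a space of rational matrices are stable for the complex
combinations. -/
lemma stab_span {𝔪 : Submodule K (Matrix κ κ K)} {t : Con} {N : Submodule K (Ix κ t → K)}
    (hN : ∀ X ∈ 𝔪, ∀ v ∈ N, der X t *ᵥ v ∈ N) {X : Matrix κ κ ℂ} (hX : X ∈ SpM ℂ 𝔪)
    {x : Ix κ t → ℂ} (hx : x ∈ cspan N) : der X t *ᵥ x ∈ cspan N := by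
  induction hX using Submodule.span_induction with
  | mem X h =>
    obtain ⟨Y, hY, rfl⟩ := h
    induction hx using Submodule.span_induction with
    | mem x h =>
      obtain ⟨v, hv, rfl⟩ := h
      have h1 : der (Y.map (algebraMap K ℂ)) t *ᵥ (fun i => algebraMap K ℂ (v i)) =
          fun i => algebraMap K ℂ ((der Y t *ᵥ v) i) := by
        rw [der_map]
        funext i
        rw [Matrix.mulVec, Matrix.mulVec, dotProduct, dotProduct, map_sum]
        refine Finset.sum_congr rfl fun j _ => ?_
        rw [map_mul, Matrix.map_apply]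
      rw [h1]
      exact cspan_mem (hN Y hY v hv)
    | zero =>
      rw [Matrix.mulVec_zero]
      exact Submodule.zero_mem _
    | add x y _ _ hx hy =>
      rw [Matrix.mulVec_add]
      exact Submodule.add_mem _ hx hy
    | smul c x _ hx =>
      rw [Matrix.mulVec_smul]
      exact Submodule.smul_mem _ _ hx
  | zero =>
    rw [der_zero, Matrix.zero_mulVec]
    exact Submodule.zero_mem _
  | add X Y _ _ hX hY =>
    rw [der_add, Matrix.add_mulVec]
    exact Submodule.add_mem _ hX hY
  | smul c X _ hX =>
    rw [der_smul, Matrix.smul_mulVec]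
    exact Submodule.smul_mem _ _ hX

/-- **Stable rational subspaces are subobjects.** -/
theorem sub_of_stab [IsAlgClosed K] {t : Con} {N : Submodule K (Ix κ t → K)}
    (hN : ∀ X ∈ lieH K P, ∀ v ∈ N, der X t *ᵥ v ∈ N) :
    ∃ N' : Submodule K (Ix κ t → K), CarriesK P t N' N := by
  classical
  let T : Submodule ℂ (Ix κ t → ℂ) := (cspan N).comap (act (P : Matrix κ κ ℂ) t).mulVecLin
  have hmem : ∀ y, y ∈ T ↔ act (P : Matrix κ κ ℂ) t *ᵥ y ∈ cspan N := fun y => Iff.rfl
  have hT : ∀ δ : Derivation K ℂ ℂ, ∀ y ∈ T, (fun i => δ (y i)) ∈ T := by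
    intro δ y hy
    rw [hmem] at hy ⊢
    have h1 := der_act δ P t y
    have h2 : (fun i => δ ((act (P : Matrix κ κ ℂ) t *ᵥ y) i)) ∈ cspan N :=
      cspan_der δ (der_rat δ) hy
    have h3 := stab_span hN (ldP_span δ) hy
    have h4 := Submodule.sub_mem _ h2 h3
    rw [h1, add_sub_cancel_left] at h4
    exact h4
  have h5 := rational_span T hT
  let N' : Submodule K (Ix κ t → K) :=
    { carrier := {a | (fun i => algebraMap K ℂ (a i)) ∈ T}
      zero_mem' := by
        have h1 : (fun i => algebraMap K ℂ ((0 : Ix κ t → K) i)) = 0 :=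
          funext fun i => map_zero _
        change _ ∈ T
        rw [h1]
        exact T.zero_mem
      add_mem' := by
        intro a b ha hb
        have h1 : (fun i => algebraMap K ℂ ((a + b) i)) = (fun i => algebraMap K ℂ (a i)) +
            fun i => algebraMap K ℂ (b i) := funext fun i => map_add _ _ _
        change _ ∈ T
        rw [h1]
        exact T.add_mem ha hb
      smul_mem' := by
        intro c a ha
        have h1 : (fun i => algebraMap K ℂ ((c • a) i)) = algebraMap K ℂ c •
            fun i => algebraMap K ℂ (a i) := funext fun i => map_mul _ _ _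
        change _ ∈ T
        rw [h1]
        exact T.smul_mem _ ha }
  refine ⟨N', ?_⟩
  have h6 : cspan N' = T := by
    refine le_antisymm ?_ ?_
    · rw [cspan, Submodule.span_le]
      rintro _ ⟨a, ha, rfl⟩
      exact ha
    · intro x hx
      have h7 := h5 x hx
      refine Submodule.span_mono ?_ h7
      rintro _ ⟨hy, a, rfl⟩
      exact ⟨a, hy, rfl⟩
  rw [CarriesK, h6]
  refine le_antisymm ?_ ?_
  · rintro _ ⟨y, hy, rfl⟩
    exact hy
  · intro x hx
    have h7 : act (P : Matrix κ κ ℂ) t *ᵥ (act ((P⁻¹ : GL κ ℂ) : Matrix κ κ ℂ) t *ᵥ x) = x := by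
      rw [Matrix.mulVec_mulVec, act_mul_inv (gl_mul_inv P), Matrix.one_mulVec]
    refine ⟨act ((P⁻¹ : GL κ ℂ) : Matrix κ κ ℂ) t *ᵥ x, ?_, h7⟩
    change _ ∈ T
    rw [hmem, h7]
    exact hx

/-- **Rational vectors killed by the Lie algebra are classes.** -/
theorem class_of_kill [IsAlgClosed K] {t : Con} {v : Ix κ t → K}
    (hv : ∀ X ∈ lieH K P, der X t *ᵥ v = 0) : ∃ v' : Ix κ t → K, MapsToK P t v' v := by
  classical
  let y : Ix κ t → ℂ := act ((P⁻¹ : GL κ ℂ) : Matrix κ κ ℂ) t *ᵥ fun i => algebraMap K ℂ (v i)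
  have hy : act (P : Matrix κ κ ℂ) t *ᵥ y = fun i => algebraMap K ℂ (v i) := by
    change act (P : Matrix κ κ ℂ) t *ᵥ (act ((P⁻¹ : GL κ ℂ) : Matrix κ κ ℂ) t *ᵥ _) = _
    rw [Matrix.mulVec_mulVec, act_mul_inv (gl_mul_inv P), Matrix.one_mulVec]
  have hkill : ∀ X ∈ SpM ℂ (lieH K P), der X t *ᵥ (fun i => algebraMap K ℂ (v i)) = 0 := by
    intro X hX
    induction hX using Submodule.span_induction with
    | mem X h =>
      obtain ⟨Y, hY, rfl⟩ := h
      have h1 : der (Y.map (algebraMap K ℂ)) t *ᵥ (fun i => algebraMap K ℂ (v i)) =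
          fun i => algebraMap K ℂ ((der Y t *ᵥ v) i) := by
        rw [der_map]
        funext i
        rw [Matrix.mulVec, Matrix.mulVec, dotProduct, dotProduct, map_sum]
        refine Finset.sum_congr rfl fun j _ => ?_
        rw [map_mul, Matrix.map_apply]
      rw [h1, hv Y hY]
      funext i
      exact map_zero _
    | zero => rw [der_zero, Matrix.zero_mulVec]
    | add X Y _ _ hX hY => rw [der_add, Matrix.add_mulVec, hX, hY, add_zero]
    | smul c X _ hX => rw [der_smul, Matrix.smul_mulVec, hX, smul_zero]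
  have hδ : ∀ δ : Derivation K ℂ ℂ, (fun i => δ (y i)) = 0 := by
    intro δ
    have h1 := der_act δ P t y
    rw [hy, hkill _ (ldP_span δ), zero_add] at h1
    have h2 : (fun i : Ix κ t => δ (algebraMap K ℂ (v i))) = 0 := funext fun i => der_rat δ _
    rw [h2] at h1
    have h3 := congrArg (fun x => act ((P⁻¹ : GL κ ℂ) : Matrix κ κ ℂ) t *ᵥ x) h1
    rw [Matrix.mulVec_zero, Matrix.mulVec_mulVec, act_mul_inv (gl_inv_mul P),
      Matrix.one_mulVec] at h3
    exact h3.symm
  have h4 : ∀ i, ∃ r, algebraMap K ℂ r = y i := fun i =>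
    const_of_der fun δ => congrFun (hδ δ) i
  choose a ha using h4
  refine ⟨a, ?_⟩
  rw [MapsToK, ← hy]
  congr 1
  exact funext ha

/-- **Classes are killed by the Lie algebra.** -/
theorem kill_of_class {t : Con} {v' : Ix κ t → K} {v : Ix κ t → K} (h : MapsToK P t v' v)
    {X : Matrix κ κ K} (hX : X ∈ lieH K P) : der X t *ᵥ v = 0 := by
  let w' : Ix κ (.sum .one t) → K := (Sum.elim (fun _ => 1) v' : Unit ⊕ Ix κ t → K)
  let w : Ix κ (.sum .one t) → K := (Sum.elim (fun _ => 1) v : Unit ⊕ Ix κ t → K)
  have hcs : ∀ {F : Type} [Field F] [Algebra F ℂ] (u : Ix κ (.sum .one t) → F),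
      cspan (Submodule.span F {u}) = Submodule.span ℂ {fun i => algebraMap F ℂ (u i)} := by
    intro F _ _ u
    refine le_antisymm ?_ ?_
    · rw [cspan, Submodule.span_le]
      rintro _ ⟨a, ha, rfl⟩
      obtain ⟨c, rfl⟩ := Submodule.mem_span_singleton.1 ha
      have h1 : (fun i => algebraMap F ℂ ((c • u) i)) = algebraMap F ℂ c •
          fun i => algebraMap F ℂ (u i) := funext fun i => map_mul _ _ _
      rw [h1]
      exact Submodule.smul_mem _ _ (Submodule.mem_span_singleton_self _)
    · rw [Submodule.span_le, Set.singleton_subset_iff]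
      exact cspan_mem (Submodule.mem_span_singleton_self u)
  have hc : CarriesK P (.sum .one t) (Submodule.span K {w'}) (Submodule.span K {w}) := by
    rw [CarriesK, hcs, hcs, Submodule.map_span, Set.image_singleton]
    congr 2
    have h1 : (act (P : Matrix κ κ ℂ) (.sum .one t)).mulVecLin
        (fun i => algebraMap K ℂ (w' i)) = (fun i => algebraMap K ℂ (w i)) := by
      change bl (1 : Matrix Unit Unit ℂ) (act (P : Matrix κ κ ℂ) t) *ᵥ
        (fun i : Unit ⊕ Ix κ t => algebraMap K ℂ ((Sum.elim (fun _ => 1) v' :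
          Unit ⊕ Ix κ t → K) i)) = _
      funext i
      rcases i with i | i
      · rw [Matrix.mulVec, dotProduct, Fintype.sum_sum_type]
        simp [bl, w]
      · have h2 := congrFun h i
        rw [Matrix.mulVec, dotProduct] at h2
        rw [Matrix.mulVec, dotProduct, Fintype.sum_sum_type]
        simp only [bl, Matrix.fromBlocks_apply₂₁, Matrix.zero_apply, zero_mul,
          Finset.sum_const_zero, zero_add, Matrix.fromBlocks_apply₂₂, Sum.elim_inr, w]
        exact h2
    exact h1
  have h1 := hX _ _ _ hc w (Submodule.mem_span_singleton_self w)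
  obtain ⟨c, hc2⟩ := Submodule.mem_span_singleton.1 h1
  have h2 : der X (.sum .one t) *ᵥ w = (Sum.elim (fun _ => 0) (der X t *ᵥ v) :
      Unit ⊕ Ix κ t → K) := by
    change bl (0 : Matrix Unit Unit K) (der X t) *ᵥ (Sum.elim (fun _ => 1) v :
      Unit ⊕ Ix κ t → K) = _
    funext i
    rcases i with i | i
    · rw [Matrix.mulVec, dotProduct, Fintype.sum_sum_type]
      simp [bl]
    · rw [Matrix.mulVec, dotProduct, Fintype.sum_sum_type]
      simp only [bl, Matrix.fromBlocks_apply₂₁, Matrix.zero_apply, zero_mul,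
        Finset.sum_const_zero, zero_add, Matrix.fromBlocks_apply₂₂, Sum.elim_inr]
      rfl
  rw [h2] at hc2
  have h3 : c = 0 := by
    have h4 := congrFun hc2 (Sum.inl ())
    change c * 1 = 0 at h4
    rwa [mul_one] at h4
  rw [h3, zero_smul] at hc2
  funext i
  exact (congrFun hc2 (Sum.inr i)).symm

end lie

end Pool.Agent.Q60.RK
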