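import Pool.Agent.Q60.RK.Dic

/-!
# Stable subspaces for the group of classes over `K`
-/

set_option linter.unusedSectionVars false

namespace Pool.Agent.Q60.RK

open MvPolynomial Matrix Module Pool.Agent.Q60.ED Pool.Agent.Q60.GL Pool.Agent.Q60.RB
  Pool.Agent.Q60.TD

variable {κ : Type} [Fintype κ] [DecidableEq κ] {K : Type} [Field K] [Algebra K ℂ]

/-- The group of a set of classes is algebraic, and so is the stabiliser of a subspace in it. -/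
theorem alg_stb (C' : ∀ t : Con, Set (Ix κ t → K)) (t : Con) (W : Submodule ℂ (Ix κ t → ℂ)) :
    IsAlgebraic (stb t W ⊓ groupK C') := by
  refine ⟨{f | (∃ (s : Con) (v : Ix κ s → K) (i : Ix κ s), v ∈ C' s ∧
      f = cv (pfn (Pi.single i 1) (fun i => algebraMap K ℂ (v i)) - C (algebraMap K ℂ (v i)))) ∨
    ∃ φ v : Ix κ t → ℂ, (∀ w ∈ W, φ ⬝ᵥ w = 0) ∧ v ∈ W ∧ f = cv (pfn φ v)}, fun g => ?_⟩
  have hev : ∀ {s : Con} (φ v : Ix κ s → ℂ), evM (blk (g : Matrix κ κ ℂ)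
      ((g⁻¹ : GL κ ℂ) : Matrix κ κ ℂ)) (pfn φ v) = φ ⬝ᵥ (act (g : Matrix κ κ ℂ) s *ᵥ v) :=
    fun φ v => ev_pfn (coe_mul_inv g) φ v
  constructor
  · rintro ⟨hW, hC⟩ f hf
    rcases hf with ⟨s, v, i, hv, rfl⟩ | ⟨φ, v, hφ, hv, rfl⟩
    · rw [eval_cv, map_sub, evM_C, hev, hC s v hv, single_dotProduct, one_mul, sub_self]
    · rw [eval_cv, hev]
      exact hφ _ ((hW v).1 hv)
  · intro h
    refine ⟨mem_stb fun v hv => sep.2 fun φ hφ => ?_, fun s v hv => ?_⟩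
    · have h1 := h _ (Or.inr ⟨φ, v, hφ, hv, rfl⟩)
      rwa [eval_cv, hev] at h1
    · funext i
      have h1 := h _ (Or.inl ⟨s, v, i, hv, rfl⟩)
      rw [eval_cv, map_sub, evM_C, hev, single_dotProduct, one_mul] at h1
      exact sub_eq_zero.1 h1

/-- **In the connected case the subspace is stable under the group.** -/
theorem stab_conn {C' : ∀ t : Con, Set (Ix κ t → K)} (hG : IsConnected (groupK C')) {t : Con}
    {W : Submodule ℂ (Ix κ t → ℂ)}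
    (h : ∀ Y : Matrix κ κ ℂ, (∀ (s : Con), ∀ w ∈ C' s,
      der Y s *ᵥ (fun i => algebraMap K ℂ (w i)) = 0) →
      ∀ v ∈ W, der Y t *ᵥ v ∈ W) {g : GL κ ℂ} (hg : g ∈ groupK C') (v : Ix κ t → ℂ) :
    v ∈ W ↔ act (g : Matrix κ κ ℂ) t *ᵥ v ∈ W := by
  have h1 : ((stb t W ⊓ groupK C').subgroupOf (groupK C')).FiniteIndex :=
    stab_fin fun Y hY v hv => h Y (fun s w hw => hY s _ fun g hg => hg s w hw) v hv
  have h2 := hG _ (alg_stb C' t W) inf_le_right h1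
  rw [← h2] at hg
  exact hg.1 v

variable {𝔥 : Submodule K (Matrix κ κ K)}

/-- **The commutators with a Lie algebra which acts semisimply on `V` act semisimply on the
endomorphisms of `V`.** -/
theorem ad_ss [IsAlgClosed K] (hbr : ∀ X ∈ 𝔥, ∀ Y ∈ 𝔥, X * Y - Y * X ∈ 𝔥)
    (hss : SSon (MO (𝔥 : Set (Matrix κ κ K))) (⊤ : Submodule K (κ → K))) :
    SSon (MO ((fun X : Matrix κ κ K => kd X (-X.transpose)) '' (𝔥 : Set (Matrix κ κ K))))
      (⊤ : Submodule K (κ × κ → K)) := by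
  have : CharZero K := (algebraMap K ℂ).charZero
  intro U _ hU
  have hUs : ∀ X ∈ 𝔥, ∀ v ∈ U, kd X (-X.transpose) *ᵥ v ∈ U := fun X hX v hv =>
    hU _ ⟨_, ⟨X, hX, rfl⟩, rfl⟩ v hv
  let S : Submodule K (Module.End K (κ → K)) :=
    𝔥.map (Matrix.toLin' : Matrix κ κ K ≃ₗ[K] _).toLinearMap
  have hS : ∀ X, X ∈ 𝔥 → Matrix.toLin' X ∈ S := fun X hX => ⟨X, hX, rfl⟩
  have hSbr : ∀ x ∈ S, ∀ y ∈ S, x * y - y * x ∈ S := by
    rintro _ ⟨X, hX, rfl⟩ _ ⟨Y, hY, rfl⟩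
    refine ⟨X * Y - Y * X, hbr X hX Y hY, ?_⟩
    change Matrix.toLin' (X * Y - Y * X) = Matrix.toLin' X * Matrix.toLin' Y -
      Matrix.toLin' Y * Matrix.toLin' X
    rw [map_sub, Matrix.toLin'_mul, Matrix.toLin'_mul]
    rfl
  have hV : ∀ W : Submodule K (κ → K), (∀ x ∈ S, ∀ w ∈ W, x w ∈ W) →
      ∃ W' : Submodule K (κ → K), (∀ x ∈ S, ∀ w ∈ W', x w ∈ W') ∧ IsCompl W W' := by
    intro W hW
    obtain ⟨C, _, hC1, hC2, hC3⟩ := hss W le_top (by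
      rintro _ ⟨A, hA, rfl⟩ v hv
      exact hW _ (hS _ hA) v hv)
    refine ⟨C, ?_, ⟨disjoint_iff.2 hC2, codisjoint_iff.2 hC3⟩⟩
    rintro _ ⟨X, hX, rfl⟩ v hv
    exact hC1 _ ⟨X, hX, rfl⟩ v hv
  let vcL : Matrix κ κ K →ₗ[K] (κ × κ → K) :=
    { toFun := vc
      map_add' := fun _ _ => rfl
      map_smul' := fun _ _ => rfl }
  let Ψ : Module.End K (κ → K) →ₗ[K] (κ × κ → K) :=
    vcL ∘ₗ (LinearMap.toMatrix' : _ ≃ₗ[K] Matrix κ κ K).toLinearMap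
  have hΨ : ∀ f, Ψ f = vc (LinearMap.toMatrix' f) := fun _ => rfl
  have hΨs : Function.Surjective Ψ := by
    intro t
    exact ⟨Matrix.toLin' (Matrix.of fun i j => t (i, j)), by
      rw [hΨ, LinearMap.toMatrix'_toLin']
      rfl⟩
  have hΨc : ∀ (X : Matrix κ κ K) (f : Module.End K (κ → K)),
      Ψ (Matrix.toLin' X * f - f * Matrix.toLin' X) = kd X (-X.transpose) *ᵥ Ψ f := by
    intro X f
    rw [hΨ, hΨ, kd_vc, map_sub]
    have h1 : LinearMap.toMatrix' (Matrix.toLin' X * f) = X * LinearMap.toMatrix' f := by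
      rw [Module.End.mul_eq_comp, LinearMap.toMatrix'_comp, LinearMap.toMatrix'_toLin']
    have h2 : LinearMap.toMatrix' (f * Matrix.toLin' X) = LinearMap.toMatrix' f * X := by
      rw [Module.End.mul_eq_comp, LinearMap.toMatrix'_comp, LinearMap.toMatrix'_toLin']
    rw [h1, h2]
  obtain ⟨W', h1, h2⟩ := Cb.lie_ad_all K (κ → K) S hSbr hV (U.comap Ψ) (by
    rintro _ ⟨X, hX, rfl⟩ f hf
    change Ψ (Matrix.toLin' X * f - f * Matrix.toLin' X) ∈ U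
    rw [hΨc X]
    exact hUs X hX _ hf)
  refine ⟨W'.map Ψ, le_top, ?_, ?_, ?_⟩
  · rintro _ ⟨_, ⟨A, hA, rfl⟩, rfl⟩ _ ⟨f, hf, rfl⟩
    refine ⟨_, h1 _ (hS _ hA) f hf, ?_⟩
    rw [hΨc]
    rfl
  · rw [eq_bot_iff]
    rintro _ ⟨hv, f, hf, rfl⟩
    have h3 : f ∈ U.comap Ψ ⊓ W' := ⟨hv, hf⟩
    rw [h2.inf_eq_bot] at h3
    rw [(Submodule.mem_bot K).1 h3, map_zero]
    exact Submodule.zero_mem _
  · rw [eq_top_iff]
    intro v _
    obtain ⟨f, rfl⟩ := hΨs v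
    have h3 : f ∈ U.comap Ψ ⊔ W' := by
      rw [h2.sup_eq_top]
      trivial
    obtain ⟨a, ha, b, hb, rfl⟩ := Submodule.mem_sup.1 h3
    rw [map_add]
    exact Submodule.add_mem_sup ha ⟨b, hb, rfl⟩

end Pool.Agent.Q60.RK
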