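import Pool.Agent.Q60.RK.Fin2

/-!
# Lines, the centre and the determinant
-/

set_option linter.unusedSectionVars false

namespace Pool.Agent.Q60.RK

open Matrix Module Pool.Agent.Q50.LR Pool.Agent.Q60.GL Pool.Agent.Q60.TD Pool.Agent.Q60.RB

variable {κ : Type} [Fintype κ] [DecidableEq κ] {K : Type} [Field K] [Algebra K ℂ]
  {P : GL κ ℂ} {C : ∀ t : Con, Set (Ix κ t → K)}

/-- Classes are subobjects of `1 ⊕ t(M)`. -/
lemma line_iff {f : GL κ ℂ} {t : Con} {v' : Ix κ t → K} {v : Ix κ t → K} :
    CarriesK f (.sum .one t) (Submodule.span K {lv v'}) (Submodule.span K {lv v}) ↔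
      MapsToK f t v' v := by
  have h0 : CarriesK f (.sum .one t) (Submodule.span K {lv v'}) (Submodule.span K {lv v}) ↔
      Submodule.span ℂ {lv (act (f : Matrix κ κ ℂ) t *ᵥ fun i => algebraMap K ℂ (v' i))} =
        Submodule.span ℂ {lv fun i => algebraMap K ℂ (v i)} := by
    rw [CarriesK, cspan_line, cspan_line, Submodule.map_span, Set.image_singleton, lv_map, lv_map,
      Matrix.mulVecLin_apply, act_lv]
  rw [h0, MapsToK]
  constructor
  · intro h
    have h1 : lv (act (f : Matrix κ κ ℂ) t *ᵥ fun i => algebraMap K ℂ (v' i)) ∈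
        Submodule.span ℂ {lv fun i => algebraMap K ℂ (v i)} := by
      rw [← h]
      exact Submodule.mem_span_singleton_self _
    obtain ⟨c, hc⟩ := Submodule.mem_span_singleton.1 h1
    exact lv_inj hc.symm
  · intro h
    rw [h]

/-- Complex vectors which are killed by all matrices killing the classes are fixed by the group of
the classes, in the connected case. -/
theorem fix_of_kill (hG : IsConnected (groupK C)) {t : Con} {x : Ix κ t → ℂ}
    (h : ∀ Y : Matrix κ κ ℂ, (∀ (s : Con), ∀ w ∈ C s, der Y s *ᵥ (fun i => algebraMap K ℂ (w i)) = 0) →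
      der Y t *ᵥ x = 0) {g : GL κ ℂ} (hg : g ∈ groupK C) :
    act (g : Matrix κ κ ℂ) t *ᵥ x = x := by
  have h1 := (stab_conn hG (t := .sum .one t) (W := Submodule.span ℂ {lv x}) (by
    intro Y hY v hv
    obtain ⟨c, rfl⟩ := Submodule.mem_span_singleton.1 hv
    rw [Matrix.mulVec_smul, der_lv (h Y hY), smul_zero]
    exact Submodule.zero_mem _) hg (lv x)).1 (Submodule.mem_span_singleton_self _)
  rw [act_lv] at h1
  obtain ⟨c, hc⟩ := Submodule.mem_span_singleton.1 h1
  exact lv_inj hc.symm

/-- The rational matrix kills the classes over the complex numbers. -/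
lemma kills_of_lieG {X : Matrix κ κ K} (hX : X ∈ lieG C) (s : Con) :
    ∀ w ∈ C s, der (X.map (algebraMap K ℂ)) s *ᵥ (fun i => algebraMap K ℂ (w i)) = 0 := by
  intro w hw
  rw [rat_mulVec, hX s w hw]
  funext i
  exact map_zero _

/-- Central elements of the Lie algebra commute with the group. -/
lemma comm_group (hG : IsConnected (groupK C)) {X : Matrix κ κ K}
    (hX : ∀ Y ∈ lieG C, X * Y = Y * X) {g : GL κ ℂ} (hg : g ∈ groupK C) :
    (g : Matrix κ κ ℂ) * X.map (algebraMap K ℂ) = X.map (algebraMap K ℂ) * (g : Matrix κ κ ℂ) := by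
  have hXY : ∀ Y ∈ SpM ℂ (lieG C), Y * X.map (algebraMap K ℂ) = X.map (algebraMap K ℂ) * Y := by
    intro Y hY
    induction hY using Submodule.span_induction with
    | mem Y h =>
      obtain ⟨Z, hZ, rfl⟩ := h
      simp only
      rw [← Matrix.map_mul, ← Matrix.map_mul, hX Z hZ]
    | zero => rw [Matrix.zero_mul, Matrix.mul_zero]
    | add A B _ _ hA hB => rw [Matrix.add_mul, Matrix.mul_add, hA, hB]
    | smul c A _ hA => rw [Matrix.smul_mul, Matrix.mul_smul, hA]
  have h1 := fix_of_kill hG (t := .tensor .std (.dual .std))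
    (x := vc (X.map (algebraMap K ℂ))) (by
      intro Y hY
      have h2 : kd Y (-Y.transpose) *ᵥ vc (X.map (algebraMap K ℂ)) =
        vc (Y * X.map (algebraMap K ℂ) - X.map (algebraMap K ℂ) * Y) := kd_vc Y Y _
      refine h2.trans ?_
      rw [hXY Y (lieG_span hY), sub_self]
      rfl) hg
  have h2 : kr (g : Matrix κ κ ℂ) (((g : Matrix κ κ ℂ)⁻¹).transpose) *ᵥ
      vc (X.map (algebraMap K ℂ)) = vc (X.map (algebraMap K ℂ)) := h1
  rw [kr_vc, Matrix.transpose_transpose] at h2
  have h3 := vc_inj h2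
  have h4 : (g : Matrix κ κ ℂ)⁻¹ * (g : Matrix κ κ ℂ) = 1 := by
    rw [← Matrix.coe_units_inv]
    exact gl_inv_mul g
  conv_rhs => rw [← h3, Matrix.mul_assoc, h4, Matrix.mul_one]

/-- The centre of the Lie algebra consists of scalars. -/
theorem centre_scalar (hG : IsConnected (groupK C)) (hZ : CentreIsScalar (groupK C))
    {X : Matrix κ κ K} (hX : X ∈ lieG C) (hXc : ∀ Y ∈ lieG C, X * Y = Y * X) :
    ∃ c : K, X = c • 1 := by
  cases isEmpty_or_nonempty κ with
  | inl h => exact ⟨0, Subsingleton.elim _ _⟩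
  | inr h =>
    obtain ⟨k⟩ := h
    obtain ⟨n, hn, hz⟩ := hZ
    set Y := X.map (algebraMap K ℂ) with hY
    have h1 : ∀ s : ℂ, ∃ c : ℂ, ex Y s = c • 1 := by
      intro s
      have h2 := hz (eu Y (s / n)) (eu_mem (fun r => kills_of_lieG hX r) _)
        fun g hg => ex_comm (comm_group hG hXc hg) _
      rw [eu_coe, ex_pow, mul_div_cancel₀ s (Nat.cast_ne_zero.2 hn.ne')] at h2
      exact h2
    have hd : ∀ i j, HasDerivAt (fun t => ex Y t i j) (Y i j) 0 := by
      intro i j
      have h2 := hasDeriv_ex Y 0 i j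
      rwa [ex_zero, Matrix.one_mul] at h2
    have hoff : ∀ i j, i ≠ j → Y i j = 0 := by
      intro i j hij
      have h2 : (fun t => ex Y t i j) = fun _ => 0 := by
        funext t
        obtain ⟨c, hc⟩ := h1 t
        rw [hc, Matrix.smul_apply, Matrix.one_apply_ne hij, smul_zero]
      have h3 := hd i j
      rw [h2] at h3
      exact (h3.unique (hasDerivAt_const _ _))
    have hdiag : ∀ i, Y i i = Y k k := by
      intro i
      have h2 : (fun t => ex Y t i i) = fun t => ex Y t k k := by
        funext t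
        obtain ⟨c, hc⟩ := h1 t
        rw [hc, Matrix.smul_apply, Matrix.smul_apply, Matrix.one_apply_eq, Matrix.one_apply_eq]
      have h3 := hd i i
      rw [h2] at h3
      exact h3.unique (hd k k)
    refine ⟨X k k, ?_⟩
    ext i j
    rw [Matrix.smul_apply]
    by_cases hij : i = j
    · subst hij
      rw [Matrix.one_apply_eq, smul_eq_mul, mul_one]
      exact (algebraMap K ℂ).injective (hdiag i)
    · rw [Matrix.one_apply_ne hij, smul_zero]
      apply (algebraMap K ℂ).injective
      rw [map_zero]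
      exact hoff i j hij

end Pool.Agent.Q60.RK
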