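import Pool.Agent.Q60.RK.Fin3
import Pool.Agent.Q60.RK.Core

/-!
# The classes of degree four over `K`
-/

set_option linter.unusedSectionVars false

namespace Pool.Agent.Q60.RK

open Matrix Module Pool.Agent.Q50.LR Pool.Agent.Q60.GL Pool.Agent.Q60.TD Pool.Agent.Q60.RB

variable {κ : Type} [Fintype κ] [DecidableEq κ] {K : Type} [Field K] [Algebra K ℂ]
  {P : GL κ ℂ} {C : ∀ t : Con, Set (Ix κ t → K)}

/-- If the Lie algebra of the classes contains the scalars, then the Lie algebra of the de Rham-Betti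
group contains a matrix with nonzero trace. -/
theorem exists_trace [IsAlgClosed K]
    (hdet : ContainsScalars (groupK C) → Transcendental K (P : Matrix κ κ ℂ).det)
    (h1 : (1 : Matrix κ κ K) ∈ lieG C) : ∃ X ∈ lieH K P, X.trace ≠ 0 := by
  have hs : ContainsScalars (groupK C) := by
    intro g hg
    obtain ⟨c, hc⟩ := hg
    cases isEmpty_or_nonempty κ with
    | inl h =>
      have h2 : g = 1 := Units.ext (Subsingleton.elim _ _)
      rw [h2]
      exact Subgroup.one_mem _
    | inr h =>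
      obtain ⟨k⟩ := h
      have hc0 : c ≠ 0 := by
        rintro rfl
        rw [zero_smul] at hc
        have h2 := coe_mul_inv g
        rw [hc, Matrix.zero_mul] at h2
        have h3 := congrFun (congrFun h2 k) k
        rw [Matrix.one_apply_eq] at h3
        exact zero_ne_one h3
      have h2 := eu_mem (C := C) (X := (1 : Matrix κ κ K).map (algebraMap K ℂ))
        (fun r => kills_of_lieG h1 r) (Complex.log c)
      have h3 : eu ((1 : Matrix κ κ K).map (algebraMap K ℂ)) (Complex.log c) = g := by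
        apply Units.ext
        rw [eu_coe, Matrix.map_one _ (map_zero _) (map_one _), ex_one, Complex.exp_log hc0, hc]
      rw [h3] at h2
      exact h2
  have ht := hdet hs
  obtain ⟨δ, hδ⟩ : ∃ δ : Derivation K ℂ ℂ, δ (P : Matrix κ κ ℂ).det ≠ 0 := by
    by_contra hcon
    push Not at hcon
    obtain ⟨r, hr⟩ := const_of_der hcon
    rw [← hr] at ht
    exact ht (isAlgebraic_algebraMap r)
  by_contra hcon
  push Not at hcon
  apply hδ
  rw [trace_ldP]
  have h2 : ∀ X ∈ SpM ℂ (lieH K P), X.trace = 0 := by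
    intro X hX
    induction hX using Submodule.span_induction with
    | mem X h =>
      obtain ⟨Y, hY, rfl⟩ := h
      have h3 : (Y.map (algebraMap K ℂ)).trace = algebraMap K ℂ Y.trace := by
        rw [Matrix.trace, Matrix.trace, map_sum]
        rfl
      simp only
      rw [h3, hcon Y hY, map_zero]
    | zero => exact Matrix.trace_zero _ _
    | add A B _ _ hA hB => rw [Matrix.trace_add, hA, hB, add_zero]
    | smul c A _ hA => rw [Matrix.trace_smul, hA, smul_zero]
  rw [h2 _ (ldP_span δ), mul_zero]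

/-- **The Lie algebras are equal.** -/
theorem lieG_le [IsAlgClosed K] (hC : AreK P C)
    (hG : IsConnected (groupK C)) (hZ : CentreIsScalar (groupK C))
    (hdet : ContainsScalars (groupK C) → Transcendental K (P : Matrix κ κ ℂ).det)
    (hs : IsSemisimpleK K P) (hF : FullK P C) : lieG C ≤ lieH K P :=
  RK.core (lieH_le hC) (fun _ hX _ hY => br_lieH hX hY) (proj_four hs hF)
    (fun _ hZ _ hX => comm_one hF hZ hX) (fun _ hX hXc => centre_scalar hG hZ hX hXc)
    (exists_trace hdet)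

/-- Elements of the group of the classes move points of the torsor of the classes. -/
lemma mul_mem_torsorOf {g f : GL κ ℂ} (hg : g ∈ groupK C) (hf : f ∈ torsorOfK P C) :
    g * f ∈ torsorOfK P C := by
  intro t v hv v' h
  have h1 := hf t v hv v' h
  rw [MapsToK] at h1 ⊢
  rw [Units.val_mul, act_mul, ← Matrix.mulVec_mulVec, h1, hg t v hv]

lemma self_mem_torsorOf : P ∈ torsorOfK P C := fun _ _ _ _ h => h

lemma torsorDRB_le : torsorK K P ⊆ torsorOfK P C := by
  intro f hf t v _ v' h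
  exact line_iff.1 (hf _ _ _ (line_iff.2 h))

/-- **The converse.** -/
theorem converse_gen [IsAlgClosed K] (hC : AreK P C) (hM : IsMotivicK C)
    (hA : ∀ g ∈ groupK C, ∀ N' N : Submodule K (Ix κ Con.std → K),
      CarriesK P Con.std N' N → CarriesK (g * P) Con.std N' N)
    (hB : ∀ g ∈ groupK C, ∀ v' v : Ix κ four → K,
      MapsToK P four v' v → MapsToK (g * P) four v' v) :
    IsSemisimpleK K P ∧ FullK P C := by
  constructor
  · intro N' N h
    have hst : StabilisesK (groupK C) Con.std N := by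
      intro g hgG x hx
      have h1 := hA g hgG _ _ h
      have h2 : (act ((g * P : GL κ ℂ) : Matrix κ κ ℂ) Con.std).mulVecLin =
          (act (g : Matrix κ κ ℂ) Con.std).mulVecLin ∘ₗ
            (act (P : Matrix κ κ ℂ) Con.std).mulVecLin := by
        rw [← Matrix.mulVecLin_mul, ← act_mul, ← Units.val_mul]
      rw [CarriesK, h2, Submodule.map_comp, h] at h1
      rw [← h1]
      exact ⟨x, hx, rfl⟩
    obtain ⟨N₂, h2, h3⟩ := hM.semisimple N hst
    obtain ⟨N₂', h4⟩ := sub_of_stab (K := K) (P := P) (t := Con.std) (N := N₂) (by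
      intro X hX v hv
      apply cspan_rat
      have h5 : (fun i => algebraMap K ℂ ((der X Con.std *ᵥ v) i)) =
          der (X.map (algebraMap K ℂ)) Con.std *ᵥ fun i => algebraMap K ℂ (v i) := (rat_mulVec X v).symm
      rw [h5]
      refine sep.2 fun φ hφ => ?_
      have hXG : X ∈ lieG C := lieH_le hC hX
      -- the function `s ↦ φ (exp (s X) v)` is zero
      have h6 : ∀ s : ℂ, φ ⬝ᵥ (ex (X.map (algebraMap K ℂ)) s *ᵥ fun i => algebraMap K ℂ (v i)) = 0 := fun s =>
        hφ _ (h2 _ (eu_mem (fun r => kills_of_lieG hXG r) s) _ (cspan_mem hv))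
      have h7 : HasDerivAt (fun s : ℂ => φ ⬝ᵥ (ex (X.map (algebraMap K ℂ)) s *ᵥ
          fun i => algebraMap K ℂ (v i))) (φ ⬝ᵥ (X.map (algebraMap K ℂ) *ᵥ fun i => algebraMap K ℂ (v i))) 0 := by
        have h8 : HasDerivAt (fun s : ℂ => ∑ i, φ i * ∑ j, ex (X.map (algebraMap K ℂ)) s i j *
            algebraMap K ℂ (v j)) (∑ i, φ i * ∑ j, (ex (X.map (algebraMap K ℂ)) 0 *
              X.map (algebraMap K ℂ)) i j * algebraMap K ℂ (v j)) 0 :=
          HasDerivAt.fun_sum fun i _ => (HasDerivAt.fun_sum fun j _ =>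
            (hasDeriv_ex _ 0 i j).mul_const _).const_mul _
        rw [ex_zero, Matrix.one_mul] at h8
        exact h8
      have h9 : (fun s : ℂ => φ ⬝ᵥ (ex (X.map (algebraMap K ℂ)) s *ᵥ fun i => algebraMap K ℂ (v i))) =
          fun _ => 0 := funext h6
      rw [h9] at h7
      exact h7.unique (hasDerivAt_const _ _))
    exact ⟨N₂', N₂, h4, h3⟩
  · intro v' v h
    refine hM.fixed four v fun g hgG => ?_
    have h1 : MapsToK (g * P) four v' v := hB g hgG _ _ h
    rw [MapsToK] at h h1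
    rw [Units.val_mul, act_mul, ← Matrix.mulVec_mulVec, h] at h1
    exact h1

/-- **The converse.** -/
theorem converse [IsAlgClosed K] (hC : AreK P C)
    (hM : IsMotivicK C) (heq : torsorK K P = torsorOfK P C) :
    IsSemisimpleK K P ∧ FullK P C := by
  have hg : ∀ g ∈ groupK C, g * P ∈ torsorK K P := fun g hg => by
    rw [heq]
    exact mul_mem_torsorOf hg self_mem_torsorOf
  exact converse_gen hC hM (fun g hgG _ _ h => hg g hgG _ _ _ h)
    fun g hgG _ _ h => line_iff.1 (hg g hgG _ _ _ (line_iff.2 h))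

/-- Endomorphisms are classes on `M ⊗ M^∨`. -/
lemma isEnd_iff {E : Matrix κ κ K} : IsEndK P E ↔ ∃ E' : Matrix κ κ K,
    MapsToK P (.tensor .std (.dual .std)) (vc E') (vc E) := by
  have h0 : ∀ E' : Matrix κ κ K, MapsToK P (.tensor .std (.dual .std)) (vc E') (vc E) ↔
      (P : Matrix κ κ ℂ) * E'.map (algebraMap K ℂ) * ((P⁻¹ : GL κ ℂ) : Matrix κ κ ℂ) =
        E.map (algebraMap K ℂ) := by
    intro E'
    have h1 : act (P : Matrix κ κ ℂ) (.tensor .std (.dual .std)) *ᵥ
        (fun i => algebraMap K ℂ (vc E' i)) = vc ((P : Matrix κ κ ℂ) *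
          E'.map (algebraMap K ℂ) * ((P⁻¹ : GL κ ℂ) : Matrix κ κ ℂ)) := by
      have h2 := kr_vc (P : Matrix κ κ ℂ) (((P : Matrix κ κ ℂ)⁻¹).transpose)
        (E'.map (algebraMap K ℂ))
      rw [Matrix.transpose_transpose, coe_inv'] at h2
      rw [← h2, ← coe_inv']
      rfl
    rw [MapsToK]
    refine ⟨fun h => vc_inj (h1.symm.trans h), fun h => h1.trans ?_⟩
    rw [h]
    rfl
  constructor
  · rintro ⟨E', h⟩
    refine ⟨E', (h0 E').2 ?_⟩
    rw [h, Matrix.mul_assoc, gl_mul_inv, Matrix.mul_one]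
  · rintro ⟨E', h⟩
    refine ⟨E', ?_⟩
    rw [← (h0 E').1 h, Matrix.mul_assoc, gl_inv_mul, Matrix.mul_one]

/-- Endomorphisms are the matrices which commute with the Lie algebra. -/
lemma isEnd_comm [IsAlgClosed K] {E : Matrix κ κ K} :
    IsEndK P E ↔ ∀ X ∈ lieH K P, X * E = E * X := by
  have h1 : ∀ X : Matrix κ κ K, der X (.tensor .std (.dual .std)) *ᵥ vc E = vc (X * E - E * X) :=
    fun X => kd_vc X X E
  rw [isEnd_iff]
  constructor
  · rintro ⟨E', h⟩ X hX
    have h2 := (h1 X).symm.trans (kill_of_class h hX)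
    exact sub_eq_zero.1 (vc_inj h2)
  · intro h
    obtain ⟨v', hv'⟩ := class_of_kill (K := K) (P := P) (t := .tensor .std (.dual .std))
      (v := vc E) fun X hX => by
        refine (h1 X).trans ?_
        rw [h X hX, sub_self]
        rfl
    exact ⟨Matrix.of fun i j => v' (i, j), hv'⟩

lemma isCentral_iff [IsAlgClosed K] {c : Matrix κ κ K} :
    IsCentralEndK P c ↔ IsCentral (lieH K P) c := by
  rw [IsCentralEndK, IsCentral]
  refine and_congr isEnd_comm (forall_congr' fun E => ?_)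
  rw [isEnd_comm]

/-- **The Lie algebras are equal.** -/
theorem lieG_le_any [IsAlgClosed K] (hC : AreK P C)
    (hs : IsSemisimpleK K P) (hF : FullK P C) (hT : TracesK P C) :
    lieG C ≤ lieH K P := by
  have hK : CharZero K := (algebraMap K ℂ).charZero
  exact RK.core_any (lieH_le hC) (fun _ hX _ hY => br_lieH hX hY) (ss_of hs) (proj_four hs hF)
    (fun _ hZ _ hX => comm_one hF hZ hX) (fun X hX => by
      obtain ⟨Y, hY, h⟩ := hT X hX
      exact ⟨Y, hY, fun c hc => h c (isCentral_iff.2 hc)⟩)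

/-- From the Lie algebras to the torsors. -/
theorem torsor_of_lie [IsAlgClosed K] (hC : AreK P C) (hG : IsConnected (groupK C))
    (hle : lieG C ≤ lieH K P) : torsorK K P = torsorOfK P C := by
  refine subset_antisymm torsorDRB_le ?_
  intro f hf t N' N h
  have hg : f * P⁻¹ ∈ groupK C := by
    intro s v hv
    obtain ⟨v', hv'⟩ := hC s v hv
    have h1 := hf s v hv v' hv'
    rw [MapsToK] at h1 hv'
    rw [Units.val_mul, act_mul, ← hv', ← Matrix.mulVec_mulVec]
    conv_lhs =>
      rw [Matrix.mulVec_mulVec (M := act ((P⁻¹ : GL κ ℂ) : Matrix κ κ ℂ) s)]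
    rw [act_mul_inv (gl_inv_mul P), Matrix.one_mulVec, h1, hv']
  have hst : ∀ x, x ∈ cspan N ↔ act ((f * P⁻¹ : GL κ ℂ) : Matrix κ κ ℂ) t *ᵥ x ∈ cspan N := by
    intro x
    refine stab_conn hG (fun Y hY v hv => ?_) hg x
    exact stab_span (fun X hX w hw => (hle hX) t N' N h w hw) (lieG_span hY) hv
  have hf2 : (act (f : Matrix κ κ ℂ) t).mulVecLin =
      (act ((f * P⁻¹ : GL κ ℂ) : Matrix κ κ ℂ) t).mulVecLin ∘ₗ
        (act (P : Matrix κ κ ℂ) t).mulVecLin := by
    rw [← Matrix.mulVecLin_mul, ← act_mul, ← Units.val_mul, inv_mul_cancel_right]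
  rw [CarriesK, hf2, Submodule.map_comp, h]
  refine le_antisymm ?_ ?_
  · rintro _ ⟨x, hx, rfl⟩
    exact (hst x).1 hx
  · intro x hx
    have h7 : act ((f * P⁻¹ : GL κ ℂ) : Matrix κ κ ℂ) t *ᵥ
        (act (((f * P⁻¹)⁻¹ : GL κ ℂ) : Matrix κ κ ℂ) t *ᵥ x) = x := by
      rw [Matrix.mulVec_mulVec, act_mul_inv (gl_mul_inv _), Matrix.one_mulVec]
    refine ⟨act (((f * P⁻¹)⁻¹ : GL κ ℂ) : Matrix κ κ ℂ) t *ᵥ x, ?_, h7⟩
    rw [SetLike.mem_coe, hst, h7]
    exact hx

/-- A subspace which is stable under exponentials is stable under the matrix. -/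
lemma der_of_ex {t : Con} {N : Submodule K (Ix κ t → K)} {X : Matrix κ κ K}
    (h : ∀ (s : ℂ), ∀ x ∈ cspan N,
      act (ex (X.map (algebraMap K ℂ)) s) t *ᵥ x ∈ cspan N) {v : Ix κ t → K} (hv : v ∈ N) :
    der X t *ᵥ v ∈ N := by
  apply cspan_rat
  have h5 : (fun i => algebraMap K ℂ ((der X t *ᵥ v) i)) =
      der (X.map (algebraMap K ℂ)) t *ᵥ fun i => algebraMap K ℂ (v i) := (rat_mulVec X v).symm
  rw [h5]
  refine sep.2 fun φ hφ => ?_
  set Z := der (X.map (algebraMap K ℂ)) t with hZ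
  have h0 : ∀ s : ℂ, act (ex (X.map (algebraMap K ℂ)) s) t = ex Z s := by
    intro s
    rw [ex, act_exp, der_smul, ex]
  have h6 : ∀ s : ℂ, φ ⬝ᵥ (ex Z s *ᵥ fun i => algebraMap K ℂ (v i)) = 0 := fun s => by
    rw [← h0]
    exact hφ _ (h s _ (cspan_mem hv))
  have h7 : HasDerivAt (fun s : ℂ => φ ⬝ᵥ (ex Z s *ᵥ fun i => algebraMap K ℂ (v i)))
      (φ ⬝ᵥ (Z *ᵥ fun i => algebraMap K ℂ (v i))) 0 := by
    have h8 : HasDerivAt (fun s : ℂ => ∑ i, φ i * ∑ j, ex Z s i j * algebraMap K ℂ (v j))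
        (∑ i, φ i * ∑ j, (ex Z 0 * Z) i j * algebraMap K ℂ (v j)) 0 :=
      HasDerivAt.fun_sum fun i _ => (HasDerivAt.fun_sum fun j _ =>
        (hasDeriv_ex _ 0 i j).mul_const _).const_mul _
    rw [ex_zero, Matrix.one_mul] at h8
    exact h8
  have h9 : (fun s : ℂ => φ ⬝ᵥ (ex Z s *ᵥ fun i => algebraMap K ℂ (v i))) = fun _ => 0 := funext h6
  rw [h9] at h7
  exact h7.unique (hasDerivAt_const _ _)

/-- From the torsors to the Lie algebras. -/
theorem lie_of_torsor (heq : torsorK K P = torsorOfK P C) : lieG C ≤ lieH K P := by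
  intro X hX t N' N h v hv
  refine der_of_ex (fun s x hx => ?_) hv
  have h1 : eu (X.map (algebraMap K ℂ)) s * P ∈ torsorK K P := by
    rw [heq]
    exact mul_mem_torsorOf (eu_mem (fun r => kills_of_lieG hX r) s) self_mem_torsorOf
  have h2 := h1 t N' N h
  have h3 : (act ((eu (X.map (algebraMap K ℂ)) s * P : GL κ ℂ) : Matrix κ κ ℂ) t).mulVecLin =
      (act (ex (X.map (algebraMap K ℂ)) s) t).mulVecLin ∘ₗ
        (act (P : Matrix κ κ ℂ) t).mulVecLin := by
    rw [← Matrix.mulVecLin_mul, ← act_mul, Units.val_mul, eu_coe]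
  rw [CarriesK, h3, Submodule.map_comp, h] at h2
  rw [← h2]
  exact ⟨x, hx, rfl⟩

/-- **The main theorem.** -/
theorem main_any [IsAlgClosed K] (hC : AreK P C) (hG : IsConnected (groupK C)) :
    (IsSemisimpleK K P → FullK P C → TracesK P C →
      torsorK K P = torsorOfK P C) ∧
    (IsMotivicK C → torsorK K P = torsorOfK P C →
      IsSemisimpleK K P ∧ FullK P C ∧ TracesK P C) ∧
    (CentreIsScalar (groupK C) → (ContainsScalars (groupK C) →
      Transcendental K (P : Matrix κ κ ℂ).det) → IsSemisimpleK K P → FullK P C →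
        TracesK P C) := by
  refine ⟨fun hs hF hT => torsor_of_lie hC hG (lieG_le_any hC hs hF hT), fun hM heq => ?_,
    fun hZ hdet hs hF X hX => ⟨X, lieG_le hC hG hZ hdet hs hF hX, fun _ _ => rfl⟩⟩
  obtain ⟨h1, h2⟩ := converse hC hM heq
  exact ⟨h1, h2, fun X hX => ⟨X, lie_of_torsor heq hX, fun _ _ => rfl⟩⟩

end Pool.Agent.Q60.RK
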