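import Pool.Agent.Q60.RK.Stm2

/-!
# Quadratic relations between the periods
-/

set_option linter.unusedSectionVars false

namespace Pool.Agent.Q60.RK

open Matrix Module Pool.Agent.Q50.LR Pool.Agent.Q60.GL Pool.Agent.Q60.TD Pool.Agent.Q60.RB

variable {κ : Type} [Fintype κ] [DecidableEq κ] {K : Type} [Field K] [Algebra K ℂ] {P : GL κ ℂ}

/-- The value at `f` of the homogeneous quadratic polynomial with the coefficients `b` over `K` in
the entries of a matrix. -/
def quad (b : κ × κ → κ × κ → K) (f : GL κ ℂ) : ℂ :=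
  ∑ x, ∑ y, algebraMap K ℂ (b x y) *
    ((f : Matrix κ κ ℂ) x.1 x.2 * (f : Matrix κ κ ℂ) y.1 y.2)

variable (K) in
/-- Every homogeneous quadratic relation over `K` between the entries of `P` holds on `T`. -/
def QuadraticRelations (P : GL κ ℂ) (T : Set (GL κ ℂ)) : Prop :=
  ∀ b : κ × κ → κ × κ → K, quad b P = 0 → ∀ f ∈ T, quad b f = 0

lemma quad_sub (b c : κ × κ → κ × κ → K) (f : GL κ ℂ) :
    quad (fun x y => b x y - c x y) f = quad b f - quad c f := by
  simp only [quad]
  rw [← Finset.sum_sub_distrib]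
  refine Finset.sum_congr rfl fun x _ => ?_
  rw [← Finset.sum_sub_distrib]
  refine Finset.sum_congr rfl fun y _ => ?_
  rw [map_sub, sub_mul]

/-- Linear relations. -/
lemma lin_of_quad {T : Set (GL κ ℂ)} (h : QuadraticRelations K P T) {c : κ × κ → K}
    (hc : ∑ x, algebraMap K ℂ (c x) * (P : Matrix κ κ ℂ) x.1 x.2 = 0) {f : GL κ ℂ} (hf : f ∈ T) :
    ∑ x, algebraMap K ℂ (c x) * (f : Matrix κ κ ℂ) x.1 x.2 = 0 := by
  have key : ∀ (f : GL κ ℂ) (y : κ × κ), quad (fun x z => if z = y then c x else 0) f =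
      (∑ x, algebraMap K ℂ (c x) * (f : Matrix κ κ ℂ) x.1 x.2) * (f : Matrix κ κ ℂ) y.1 y.2 := by
    intro f y
    rw [quad, Finset.sum_mul]
    refine Finset.sum_congr rfl fun x _ => ?_
    rw [Finset.sum_eq_single y]
    · rw [if_pos rfl, mul_assoc]
    · intro z _ hz
      rw [if_neg hz, map_zero, zero_mul]
    · exact fun h => absurd (Finset.mem_univ _) h
  by_contra hne
  have h1 : ∀ y : κ × κ, (f : Matrix κ κ ℂ) y.1 y.2 = 0 := by
    intro y
    have h2 := h (fun x z => if z = y then c x else 0) (by rw [key, hc, zero_mul]) f hf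
    rw [key] at h2
    exact (mul_eq_zero.1 h2).resolve_left hne
  have h2 : (f : Matrix κ κ ℂ) = 0 := by
    ext i j
    exact h1 (i, j)
  have h3 := gl_mul_inv f
  rw [h2, Matrix.zero_mul] at h3
  apply hne
  refine Finset.sum_eq_zero fun x _ => ?_
  have h4 := congrFun (congrFun h3 x.1) x.1
  rw [Matrix.one_apply_eq] at h4
  exact absurd h4 zero_ne_one

/-- Subobjects of `M`. -/
lemma carries_of_quad {T : Set (GL κ ℂ)} (h : QuadraticRelations K P T)
    {N' N : Submodule K (Ix κ Con.std → K)} (hN : CarriesK P Con.std N' N) {f : GL κ ℂ}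
    (hf : f ∈ T) : CarriesK f Con.std N' N := by
  rw [carries_iff hN, Submodule.map_le_iff_le_comap, cspan, Submodule.span_le]
  rintro _ ⟨v, hv, rfl⟩
  change act (f : Matrix κ κ ℂ) Con.std *ᵥ (fun i => algebraMap K ℂ (v i)) ∈ cspan N
  rw [mem_cspan_iff]
  intro b hb
  have key : ∀ f : GL κ ℂ, (fun i => algebraMap K ℂ (b i)) ⬝ᵥ
      (act (f : Matrix κ κ ℂ) Con.std *ᵥ fun i => algebraMap K ℂ (v i)) =
      ∑ x : κ × κ, algebraMap K ℂ (b x.1 * v x.2) * (f : Matrix κ κ ℂ) x.1 x.2 := by
    intro f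
    rw [Fintype.sum_prod_type, dotProduct]
    refine Finset.sum_congr rfl fun i _ => ?_
    rw [Matrix.mulVec, dotProduct, Finset.mul_sum]
    refine Finset.sum_congr rfl fun j _ => ?_
    rw [map_mul]
    change algebraMap K ℂ (b i) * ((f : Matrix κ κ ℂ) i j * algebraMap K ℂ (v j)) = _
    ring
  rw [key]
  refine lin_of_quad h ?_ hf
  rw [← key]
  have h1 : act (P : Matrix κ κ ℂ) Con.std *ᵥ (fun i => algebraMap K ℂ (v i)) ∈ cspan N := by
    rw [← hN]
    exact ⟨_, cspan_mem hv, rfl⟩
  exact mem_cspan_iff.1 h1 b hb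

/-- The quadratic polynomials which say that `f` maps `v'` to `v`. -/
def b4 (v' v : (κ × κ) × (κ × κ) → K) (i j m n : κ) (x y : κ × κ) : K :=
  (if x.1 = i ∧ y.1 = n then v' ((x.2, j), (m, y.2)) else 0) -
    (if x.2 = j ∧ y.2 = m then v ((i, x.1), (y.1, n)) else 0)

lemma act_four (f : GL κ ℂ) : act (f : Matrix κ κ ℂ) four =
    kr (kr (f : Matrix κ κ ℂ) ((f⁻¹ : GL κ ℂ) : Matrix κ κ ℂ).transpose)
      (kr ((f⁻¹ : GL κ ℂ) : Matrix κ κ ℂ).transpose (f : Matrix κ κ ℂ)) := by
  have h0 : ∀ g : GL κ ℂ, act (g : Matrix κ κ ℂ) (.tensor .std (.dual .std)) =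
      kr (g : Matrix κ κ ℂ) ((g⁻¹ : GL κ ℂ) : Matrix κ κ ℂ).transpose := by
    intro g
    rw [← coe_inv']
    rfl
  have h1 : (act (f : Matrix κ κ ℂ) (.tensor .std (.dual .std)))⁻¹ =
      kr ((f⁻¹ : GL κ ℂ) : Matrix κ κ ℂ) (f : Matrix κ κ ℂ).transpose := by
    rw [act_inv (gl_mul_inv f), h0, inv_inv]
  change kr (act (f : Matrix κ κ ℂ) (.tensor .std (.dual .std)))
    (((act (f : Matrix κ κ ℂ) (.tensor .std (.dual .std)))⁻¹).transpose) = _
  rw [h1, h0]
  rfl

/-- **Classes on `(M ⊗ M^∨) ⊗ (M ⊗ M^∨)^∨` are quadratic relations.** -/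
lemma four_iff (f : GL κ ℂ) (v' v : (κ × κ) × (κ × κ) → K) :
    MapsToK f four v' v ↔ ∀ i j m n, quad (b4 v' v i j m n) f = 0 := by
  set F : Matrix κ κ ℂ := (f : Matrix κ κ ℂ) with hF
  set G : Matrix κ κ ℂ := ((f⁻¹ : GL κ ℂ) : Matrix κ κ ℂ) with hG
  have hFG : F.transpose * G.transpose = 1 := by
    rw [← Matrix.transpose_mul, hG, hF, gl_inv_mul, Matrix.transpose_one]
  have hGF : G.transpose * F.transpose = 1 := by
    rw [← Matrix.transpose_mul, hG, hF, gl_mul_inv, Matrix.transpose_one]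
  set w' : (κ × κ) × (κ × κ) → ℂ := fun i => algebraMap K ℂ (v' i) with hw'
  set w : (κ × κ) × (κ × κ) → ℂ := fun i => algebraMap K ℂ (v i) with hw
  let B := kr (kr (1 : Matrix κ κ ℂ) F.transpose) (kr F.transpose (1 : Matrix κ κ ℂ))
  let B' := kr (kr (1 : Matrix κ κ ℂ) G.transpose) (kr G.transpose (1 : Matrix κ κ ℂ))
  let A := kr (kr F G.transpose) (kr G.transpose F)
  let D := kr (kr F (1 : Matrix κ κ ℂ)) (kr (1 : Matrix κ κ ℂ) F)
  have hB : B' * B = 1 := by
    change kr _ _ * kr _ _ = 1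
    have h11 : kr (1 : Matrix κ κ ℂ) (1 : Matrix κ κ ℂ) = 1 := Matrix.one_kronecker_one
    rw [kr_mul, kr_mul, kr_mul, hGF, Matrix.one_mul, h11]
    exact Matrix.one_kronecker_one
  have hBA : B * A = D := by
    change kr _ _ * kr _ _ = kr _ _
    rw [kr_mul, kr_mul, kr_mul, hFG, Matrix.one_mul]
  have h1 : MapsToK f four v' v ↔ D *ᵥ w' = B *ᵥ w := by
    have h2 : MapsToK f four v' v ↔ A *ᵥ w' = w := by
      rw [MapsToK, act_four]
      exact Iff.rfl
    rw [h2, ← hBA, ← Matrix.mulVec_mulVec]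
    refine ⟨fun h => by rw [h], fun h => ?_⟩
    have h3 := congrArg (fun z => B' *ᵥ z) h
    simp only [Matrix.mulVec_mulVec, ← Matrix.mul_assoc] at h3
    rwa [hB, Matrix.one_mul, Matrix.one_mulVec] at h3
  have h2 : ∀ i j m n, quad (b4 v' v i j m n) f =
      (D *ᵥ w') ((i, j), (m, n)) - (B *ᵥ w) ((i, j), (m, n)) := by
    intro i j m n
    have e1 : (D *ᵥ w') ((i, j), (m, n)) = ∑ a, ∑ d, F i a * F n d * w' ((a, j), (m, d)) := by
      rw [Matrix.mulVec, dotProduct, Fintype.sum_prod_type, Fintype.sum_prod_type]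
      refine Finset.sum_congr rfl fun a _ => ?_
      rw [Finset.sum_eq_single j]
      · rw [Fintype.sum_prod_type, Finset.sum_eq_single m]
        · refine Finset.sum_congr rfl fun d _ => ?_
          change F i a * (1 : Matrix κ κ ℂ) j j * ((1 : Matrix κ κ ℂ) m m * F n d) * _ = _
          rw [Matrix.one_apply_eq, Matrix.one_apply_eq, mul_one, one_mul]
        · intro c _ hc
          refine Finset.sum_eq_zero fun d _ => ?_
          change F i a * (1 : Matrix κ κ ℂ) j j * ((1 : Matrix κ κ ℂ) m c * F n d) * _ = 0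
          rw [Matrix.one_apply_ne (Ne.symm hc), zero_mul, mul_zero, zero_mul]
        · exact fun h => absurd (Finset.mem_univ _) h
      · intro b _ hb
        refine Finset.sum_eq_zero fun x _ => ?_
        change F i a * (1 : Matrix κ κ ℂ) j b * _ * _ = 0
        rw [Matrix.one_apply_ne (Ne.symm hb), mul_zero, zero_mul, zero_mul]
      · exact fun h => absurd (Finset.mem_univ _) h
    have e2 : (B *ᵥ w) ((i, j), (m, n)) = ∑ b, ∑ c, F b j * F c m * w ((i, b), (c, n)) := by
      rw [Matrix.mulVec, dotProduct, Fintype.sum_prod_type, Fintype.sum_prod_type,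
        Finset.sum_eq_single i]
      · refine Finset.sum_congr rfl fun b _ => ?_
        rw [Fintype.sum_prod_type]
        refine Finset.sum_congr rfl fun c _ => ?_
        rw [Finset.sum_eq_single n]
        · change (1 : Matrix κ κ ℂ) i i * F b j * (F c m * (1 : Matrix κ κ ℂ) n n) * _ = _
          rw [Matrix.one_apply_eq, Matrix.one_apply_eq, mul_one, one_mul]
        · intro d _ hd
          change (1 : Matrix κ κ ℂ) i i * F b j * (F c m * (1 : Matrix κ κ ℂ) n d) * _ = 0
          rw [Matrix.one_apply_ne (Ne.symm hd), mul_zero, mul_zero, zero_mul]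
        · exact fun h => absurd (Finset.mem_univ _) h
      · intro a _ ha
        refine Finset.sum_eq_zero fun b _ => Finset.sum_eq_zero fun x _ => ?_
        change (1 : Matrix κ κ ℂ) i a * F b j * _ * _ = 0
        rw [Matrix.one_apply_ne (Ne.symm ha), zero_mul, zero_mul, zero_mul]
      · exact fun h => absurd (Finset.mem_univ _) h
    rw [e1, e2]
    have e3 := quad_sub (fun x y => if x.1 = i ∧ y.1 = n then v' ((x.2, j), (m, y.2)) else 0)
      (fun x y => if x.2 = j ∧ y.2 = m then v ((i, x.1), (y.1, n)) else 0) f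
    refine e3.trans ?_
    congr 1
    · rw [quad, Fintype.sum_prod_type, Finset.sum_eq_single i]
      · refine Finset.sum_congr rfl fun a _ => ?_
        rw [Fintype.sum_prod_type, Finset.sum_eq_single n]
        · refine Finset.sum_congr rfl fun d _ => ?_
          rw [if_pos ⟨rfl, rfl⟩, mul_comm]
        · intro c _ hc
          refine Finset.sum_eq_zero fun d _ => ?_
          rw [if_neg (fun h => hc h.2), map_zero, zero_mul]
        · exact fun h => absurd (Finset.mem_univ _) h
      · intro c _ hc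
        refine Finset.sum_eq_zero fun d _ => Finset.sum_eq_zero fun y _ => ?_
        rw [if_neg (fun h => hc h.1), map_zero, zero_mul]
      · exact fun h => absurd (Finset.mem_univ _) h
    · rw [quad, Fintype.sum_prod_type]
      refine Finset.sum_congr rfl fun b _ => ?_
      rw [Finset.sum_eq_single j]
      · rw [Fintype.sum_prod_type]
        refine Finset.sum_congr rfl fun c _ => ?_
        rw [Finset.sum_eq_single m]
        · rw [if_pos ⟨rfl, rfl⟩, mul_comm]
        · intro d _ hd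
          rw [if_neg (fun h => hd h.2), map_zero, zero_mul]
        · exact fun h => absurd (Finset.mem_univ _) h
      · intro d _ hd
        refine Finset.sum_eq_zero fun y _ => ?_
        rw [if_neg (fun h => hd h.1), map_zero, zero_mul]
      · exact fun h => absurd (Finset.mem_univ _) h
  rw [h1]
  constructor
  · intro h i j m n
    rw [h2, h, sub_self]
  · intro h
    funext ⟨⟨i, j⟩, ⟨m, n⟩⟩
    have h3 := h i j m n
    rw [h2] at h3
    exact sub_eq_zero.1 h3

variable {C : ∀ t : Con, Set (Ix κ t → ℚ)}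

/-- **Quadratic relations imply the conditions in degree four.** -/
theorem of_quad [IsAlgClosed K] (hC : AreDRB K P C) (hM : IsMotivicK (toK K C))
    (h : QuadraticRelations K P (torsorOf K P C)) :
    IsSemisimpleK K P ∧ FullK P (toK K C) := by
  have hg : ∀ g ∈ groupK (toK K C), g * P ∈ torsorOf K P C := by
    intro g hg
    rw [← torsorOfK_toK]
    exact mul_mem_torsorOf hg self_mem_torsorOf
  refine converse_gen (areK_toK hC) hM (fun g hgG N' N hN => carries_of_quad h hN (hg g hgG))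
    fun g hgG v' v hv => ?_
  rw [four_iff] at hv ⊢
  intro i j m n
  exact h _ (hv i j m n) _ (hg g hgG)

end Pool.Agent.Q60.RK
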