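import Pool.Agent.Q60.RB.Conn2

/-!
# Subobjects and classes over `K`
-/

namespace Pool.Agent.Q60.RK

open Matrix Pool.Agent.Q60.RB

variable {κ : Type} [Fintype κ] [DecidableEq κ] {K : Type} [Field K] [Algebra K ℂ]

/-- `f`, acting on `t(M)`, carries `N'` to `N`; both are subspaces over `K`. -/
def CarriesK (f : GL κ ℂ) (t : Con) (N' N : Submodule K (Ix κ t → K)) : Prop :=
  (cspan N').map (act (f : Matrix κ κ ℂ) t).mulVecLin = cspan N

/-- `f`, acting on `t(M)`, maps the vector `v'` to the vector `v`, both over `K`. -/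
def MapsToK (f : GL κ ℂ) (t : Con) (v' v : Ix κ t → K) : Prop :=
  act (f : Matrix κ κ ℂ) t *ᵥ (fun i => algebraMap K ℂ (v' i)) = fun i => algebraMap K ℂ (v i)

variable (K) in
/-- The matrices which carry all subobjects over `K`. -/
def torsorK (P : GL κ ℂ) : Set (GL κ ℂ) :=
  {f | ∀ (t : Con) (N' N : Submodule K (Ix κ t → K)), CarriesK P t N' N → CarriesK f t N' N}

/-- The torsor of the classes in `C`. -/
def torsorOfK (P : GL κ ℂ) (C : ∀ t : Con, Set (Ix κ t → K)) : Set (GL κ ℂ) :=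
  {f | ∀ (t : Con), ∀ v ∈ C t, ∀ v' : Ix κ t → K, MapsToK P t v' v → MapsToK f t v' v}

/-- The group of the classes in `C`. -/
def groupK (C : ∀ t : Con, Set (Ix κ t → K)) : Subgroup (GL κ ℂ) where
  carrier := {g | ∀ (t : Con), ∀ v ∈ C t,
    act (g : Matrix κ κ ℂ) t *ᵥ (fun i => algebraMap K ℂ (v i)) = fun i => algebraMap K ℂ (v i)}
  one_mem' t v _ := by rw [Units.val_one, act_one, one_mulVec]
  mul_mem' {g h} hg hh t v hv := by
    rw [Units.val_mul, act_mul, ← mulVec_mulVec, hh t v hv, hg t v hv]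
  inv_mem' {g} hg t v hv := by
    have h1 : act ((g⁻¹ : GL κ ℂ) : Matrix κ κ ℂ) t * act (g : Matrix κ κ ℂ) t = 1 :=
      act_mul_inv (by rw [← Units.val_mul, inv_mul_cancel, Units.val_one]) t
    conv_lhs => rw [← hg t v hv]
    rw [mulVec_mulVec, h1, one_mulVec]

variable (K) in
/-- Every subobject over `K` of `M` has a complement. -/
def IsSemisimpleK (P : GL κ ℂ) : Prop :=
  ∀ N' N : Submodule K (Ix κ Con.std → K), CarriesK P Con.std N' N →
    ∃ N₂' N₂ : Submodule K (Ix κ Con.std → K), CarriesK P Con.std N₂' N₂ ∧ IsCompl N N₂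

/-- Every class over `K` on `(M ⊗ M^∨) ⊗ (M ⊗ M^∨)^∨` is a combination of elements of `C`. -/
def FullK (P : GL κ ℂ) (C : ∀ t : Con, Set (Ix κ t → K)) : Prop :=
  ∀ v' v : Ix κ four → K, MapsToK P four v' v → v ∈ Submodule.span K (C four)

/-- All elements of `C` are classes. -/
def AreK (P : GL κ ℂ) (C : ∀ t : Con, Set (Ix κ t → K)) : Prop :=
  ∀ (t : Con), ∀ v ∈ C t, ∃ v' : Ix κ t → K, MapsToK P t v' v

/-- Endomorphisms over `K`. -/
def IsEndK (P : GL κ ℂ) (E : Matrix κ κ K) : Prop :=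
  ∃ E' : Matrix κ κ K, (P : Matrix κ κ ℂ) * E'.map (algebraMap K ℂ) =
    E.map (algebraMap K ℂ) * (P : Matrix κ κ ℂ)

/-- The centre of the algebra of endomorphisms over `K`. -/
def IsCentralEndK (P : GL κ ℂ) (c : Matrix κ κ K) : Prop :=
  IsEndK P c ∧ ∀ E : Matrix κ κ K, IsEndK P E → c * E = E * c

variable (K) in
/-- The matrices over `K` which stabilise all subobjects over `K`. -/
def LieK (P : GL κ ℂ) : Set (Matrix κ κ K) :=
  {X | ∀ (t : Con) (N' N : Submodule K (Ix κ t → K)),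
    CarriesK P t N' N → ∀ v ∈ N, der X t *ᵥ v ∈ N}

/-- The matrices over `K` which kill all elements of `C`. -/
def LieOfK (C : ∀ t : Con, Set (Ix κ t → K)) : Set (Matrix κ κ K) :=
  {X | ∀ (t : Con), ∀ v ∈ C t, der X t *ᵥ v = 0}

/-- The condition on the traces. -/
def TracesK (P : GL κ ℂ) (C : ∀ t : Con, Set (Ix κ t → K)) : Prop :=
  ∀ X ∈ LieOfK C, ∃ Y ∈ LieK K P, ∀ c : Matrix κ κ K, IsCentralEndK P c →
    (X * c).trace = (Y * c).trace

/-- The group `G` stabilises the subspace `N` of `t(M)`. -/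
def StabilisesK (G : Subgroup (GL κ ℂ)) (t : Con) (N : Submodule K (Ix κ t → K)) : Prop :=
  ∀ g ∈ G, ∀ x ∈ cspan N, act (g : Matrix κ κ ℂ) t *ᵥ x ∈ cspan N

/-- The properties of the motivated classes. -/
structure IsMotivicK (C : ∀ t : Con, Set (Ix κ t → K)) : Prop where
  fixed : ∀ (t : Con) (v : Ix κ t → K), (∀ g ∈ groupK C,
    act (g : Matrix κ κ ℂ) t *ᵥ (fun i => algebraMap K ℂ (v i)) = fun i => algebraMap K ℂ (v i)) →
      v ∈ Submodule.span K (C t)
  semisimple : ∀ N : Submodule K (Ix κ Con.std → K), StabilisesK (groupK C) Con.std N →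
    ∃ N₂ : Submodule K (Ix κ Con.std → K), StabilisesK (groupK C) Con.std N₂ ∧ IsCompl N N₂

end Pool.Agent.Q60.RK
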