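import Pool.Agent.Q60.RK.Tor2

/-!
# Rational classes and the smallest subtorsor
-/

set_option linter.unusedSectionVars false

namespace Pool.Agent.Q60.RK

open Matrix Module Pool.Agent.Q50.LR Pool.Agent.Q60.GL Pool.Agent.Q60.TD Pool.Agent.Q60.RB

variable {κ : Type} [Fintype κ] [DecidableEq κ] {K : Type} [Field K]

variable (K) in
/-- The rational vectors in `C`, as vectors over `K`. -/
def toK (C : ∀ t : Con, Set (Ix κ t → ℚ)) (t : Con) : Set (Ix κ t → K) :=
  {w | ∃ v ∈ C t, w = fun i => (v i : K)}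

variable (K) in
/-- The centre of the Lie algebra over `K` of the group of the classes in `C` consists of
scalars. -/
def LieCentreScalar (C : ∀ t : Con, Set (Ix κ t → ℚ)) : Prop :=
  ∀ X ∈ LieOfK (toK K C), (∀ Y ∈ LieOfK (toK K C), X * Y = Y * X) → ∃ c : K, X = c • 1

variable [Algebra K ℂ] {P : GL κ ℂ} {C : ∀ t : Con, Set (Ix κ t → ℚ)}

lemma cast_vec {B : Type} (v : B → ℚ) :
    (fun i => algebraMap K ℂ ((v i : ℚ) : K)) = fun i => (v i : ℂ) := by
  funext i
  have hK : CharZero K := (algebraMap K ℂ).charZero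
  exact map_ratCast (algebraMap K ℂ) (v i)

lemma mapsTo_toK {f : GL κ ℂ} {t : Con} {v' : Ix κ t → K} {v : Ix κ t → ℚ} :
    MapsToK f t v' (fun i => ((v i : ℚ) : K)) ↔ MapsTo K f t v' v := by
  rw [MapsToK, MapsTo, cast_vec]

lemma areK_toK (hC : AreDRB K P C) : AreK P (toK K C) := by
  rintro t _ ⟨v, hv, rfl⟩
  obtain ⟨v', h⟩ := hC t v hv
  exact ⟨v', mapsTo_toK.2 h⟩

lemma groupK_toK : groupK (toK K C) = group C := by
  ext g
  constructor
  · intro hg t v hv
    have h1 := hg t _ ⟨v, hv, rfl⟩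
    rwa [cast_vec] at h1
  · rintro hg t _ ⟨v, hv, rfl⟩
    rw [cast_vec]
    exact hg t v hv

lemma torsorOfK_toK : torsorOfK P (toK K C) = torsorOf K P C := by
  ext f
  constructor
  · intro hf t v hv v' h
    exact mapsTo_toK.1 (hf t _ ⟨v, hv, rfl⟩ v' (mapsTo_toK.2 h))
  · rintro hf t _ ⟨v, hv, rfl⟩ v' h
    exact mapsTo_toK.2 (hf t v hv v' (mapsTo_toK.1 h))

/-- Rational subspaces are subspaces over `K`. -/
lemma cspan_toK {B : Type} (N : Submodule ℚ (B → ℚ)) :
    cspan (Submodule.span K {w : B → K | ∃ v ∈ N, w = fun i => ((v i : ℚ) : K)}) = cspan N := by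
  apply le_antisymm
  · rw [cspan, Submodule.span_le]
    rintro _ ⟨w, hw, rfl⟩
    change (fun i => algebraMap K ℂ (w i)) ∈ cspan N
    induction hw using Submodule.span_induction with
    | mem w h =>
      obtain ⟨v, hv, rfl⟩ := h
      rw [cast_vec]
      exact cspan_mem hv
    | zero =>
      have h1 : (fun i => algebraMap K ℂ ((0 : B → K) i)) = 0 := funext fun i => map_zero _
      rw [h1]
      exact Submodule.zero_mem _
    | add x y _ _ hx hy =>
      have h1 : (fun i => algebraMap K ℂ ((x + y) i)) = (fun i => algebraMap K ℂ (x i)) +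
          fun i => algebraMap K ℂ (y i) := funext fun i => map_add _ _ _
      rw [h1]
      exact Submodule.add_mem _ hx hy
    | smul c x _ hx =>
      have h1 : (fun i => algebraMap K ℂ ((c • x) i)) = algebraMap K ℂ c •
          (fun i => algebraMap K ℂ (x i)) := funext fun i => map_mul _ _ _
      rw [h1]
      exact Submodule.smul_mem _ _ hx
  · rw [cspan, Submodule.span_le]
    rintro _ ⟨v, hv, rfl⟩
    have h1 : (fun i => algebraMap ℚ ℂ (v i)) = fun i => algebraMap K ℂ ((v i : ℚ) : K) :=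
      (cast_vec v).symm
    rw [h1]
    exact cspan_mem (Submodule.subset_span ⟨v, hv, rfl⟩)

lemma torsorK_le_DRB : torsorK K P ⊆ torsorDRB K P := by
  intro f hf t N' N h
  have h1 : CarriesK P t N' (Submodule.span K {w : Ix κ t → K | ∃ v ∈ N, w = fun i => ((v i : ℚ) : K)}) := by
    rw [CarriesK, cspan_toK]
    exact h
  have h2 := hf t _ _ h1
  rw [CarriesK, cspan_toK] at h2
  exact h2

lemma torsorDRB_le_of (hC : AreDRB K P C) : torsorDRB K P ⊆ torsorOf K P C := RB.torsorDRB_le

/-- **The main theorem for the smallest subtorsor.** -/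
theorem main_smallest [IsAlgClosed K] (hC : AreDRB K P C) :
    (IsConnected (group C) → IsSemisimpleK K P → FullK P (toK K C) → TracesK P (toK K C) →
      smallest K P = torsorDRB K P ∧ torsorDRB K P = torsorOf K P C) ∧
    (IsMotivicK (toK K C) → smallest K P = torsorOf K P C →
      IsConnected (group C) ∧ IsSemisimpleK K P ∧ FullK P (toK K C) ∧ TracesK P (toK K C)) ∧
    (LieCentreScalar K C → (ContainsScalars (group C) →
      Transcendental K (P : Matrix κ κ ℂ).det) → IsSemisimpleK K P → FullK P (toK K C) →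
        TracesK P (toK K C)) := by
  have hCK := areK_toK hC
  refine ⟨fun hG hs hF hT => ?_, fun hM heq => ?_, fun hZ hdet hs hF X hX => ?_⟩
  · have h1 := (main_any hCK (by rw [groupK_toK]; exact hG)).1 hs hF hT
    rw [torsorOfK_toK] at h1
    rw [smallest_eq]
    exact ⟨subset_antisymm torsorK_le_DRB (by
      rw [h1]
      exact torsorDRB_le_of hC), subset_antisymm (torsorDRB_le_of hC) (by
      rw [← h1]
      exact torsorK_le_DRB)⟩
  · rw [smallest_eq, ← torsorOfK_toK] at heq
    have hG := conn_of_torsor hCK heq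
    obtain ⟨h1, h2, h3⟩ := (main_any hCK hG).2.1 hM heq
    rw [groupK_toK] at hG
    exact ⟨hG, h1, h2, h3⟩
  · refine ⟨X, ?_, fun _ _ => rfl⟩
    rw [← groupK_toK (K := K)] at hdet
    exact RK.core (lieH_le hCK) (fun _ hX _ hY => br_lieH hX hY) (proj_four hs hF)
      (fun _ hZ _ hX => comm_one hF hZ hX) hZ (exists_trace hdet) hX

end Pool.Agent.Q60.RK
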