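import Pool.Agent.Q60.RK.Conn2

/-!
# Subtorsors over `K` and their `K`-points
-/

set_option linter.unusedSectionVars false

namespace Pool.Agent.Q60.RK

open MvPolynomial Matrix Module Pool.Agent.Q60.RB

variable {κ : Type} [Fintype κ] [DecidableEq κ] (K : Type) [Field K] [Algebra K ℂ]

/-- `T` is the set of the complex points of a `K`-subtorsor of `GL`: it is the set of zeros of
polynomials over `K` in the entries of `g` and of its inverse, and it is closed under
`(x, y, z) ↦ x y⁻¹ z`. -/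
def IsSubtorsor (T : Set (GL κ ℂ)) : Prop :=
  (∃ S : Set (MvPolynomial (κ × κ ⊕ κ × κ) K), ∀ g : GL κ ℂ, g ∈ T ↔ ∀ f ∈ S, aeval (pt g) f = 0) ∧
    ∀ x ∈ T, ∀ y ∈ T, ∀ z ∈ T, x * y⁻¹ * z ∈ T

/-- The complex points of `Ω_M`, the smallest `K`-subtorsor containing the period matrix `P`. -/
def smallest (P : GL κ ℂ) : Set (GL κ ℂ) := {f | ∀ T : Set (GL κ ℂ), IsSubtorsor K T → P ∈ T → f ∈ T}

variable {K}

lemma pt_inv (g : GL κ ℂ) : pt g⁻¹ = pt g ∘ Sum.swap := by
  funext x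
  rcases x with x | x
  · rfl
  · change ((g⁻¹⁻¹ : GL κ ℂ) : Matrix κ κ ℂ) x.1 x.2 = (g : Matrix κ κ ℂ) x.1 x.2
    rw [inv_inv]

/-- The entries of the action are polynomials. -/
theorem entry_poly (t : Con) : ∀ i j : Ix κ t, ∃ f : MvPolynomial (κ × κ ⊕ κ × κ) K,
    ∀ g : GL κ ℂ, aeval (pt g) f = act (g : Matrix κ κ ℂ) t i j := by
  induction t with
  | one =>
    intro i j
    refine ⟨1, fun g => ?_⟩
    rw [map_one]
    change 1 = (1 : Matrix Unit Unit ℂ) () ()
    rw [Matrix.one_apply_eq]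
  | std => exact fun i j => ⟨X (Sum.inl (i, j)), fun g => aeval_X _ _⟩
  | dual t ih =>
    intro i j
    obtain ⟨f, hf⟩ := ih j i
    refine ⟨rename Sum.swap f, fun g => ?_⟩
    rw [aeval_rename, ← pt_inv, hf g⁻¹]
    change act ((g⁻¹ : GL κ ℂ) : Matrix κ κ ℂ) t j i =
      ((act (g : Matrix κ κ ℂ) t)⁻¹).transpose i j
    rw [act_inv (gl_mul_inv g)]
    rfl
  | tensor t s iht ihs =>
    rintro ⟨i, i'⟩ ⟨j, j'⟩
    obtain ⟨f, hf⟩ := iht i j
    obtain ⟨f', hf'⟩ := ihs i' j'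
    exact ⟨f * f', fun g => by rw [map_mul, hf, hf']; rfl⟩
  | sum t s iht ihs =>
    rintro (i | i) (j | j)
    · obtain ⟨f, hf⟩ := iht i j
      exact ⟨f, fun g => (hf g).trans rfl⟩
    · exact ⟨0, fun g => by rw [map_zero]; rfl⟩
    · exact ⟨0, fun g => by rw [map_zero]; rfl⟩
    · obtain ⟨f, hf⟩ := ihs i j
      exact ⟨f, fun g => (hf g).trans rfl⟩

/-- Matrix coefficients over `K` are polynomials over `K`. -/
theorem coeff_poly {t : Con} (b v : Ix κ t → K) : ∃ f : MvPolynomial (κ × κ ⊕ κ × κ) K,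
    ∀ g : GL κ ℂ, aeval (pt g) f = (fun i => algebraMap K ℂ (b i)) ⬝ᵥ
      (act (g : Matrix κ κ ℂ) t *ᵥ fun i => algebraMap K ℂ (v i)) := by
  choose F hF using fun i j => entry_poly (κ := κ) (K := K) t i j
  refine ⟨∑ i, C (b i) * ∑ j, F i j * C (v j), fun g => ?_⟩
  rw [map_sum, dotProduct]
  refine Finset.sum_congr rfl fun i _ => ?_
  rw [map_mul, aeval_C, map_sum, Matrix.mulVec, dotProduct]
  congr 1
  refine Finset.sum_congr rfl fun j _ => ?_
  rw [map_mul, aeval_C, hF]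

/-- Polynomials over `K` are matrix coefficients over `K`. -/
theorem poly_repK (u : MvPolynomial (κ × κ ⊕ κ × κ) K) : ∃ (t : Con) (a w : Ix κ t → K),
    ∀ g : GL κ ℂ, aeval (pt g) u = (fun i => algebraMap K ℂ (a i)) ⬝ᵥ
      (act (g : Matrix κ κ ℂ) t *ᵥ fun i => algebraMap K ℂ (w i)) := by
  induction u using MvPolynomial.induction_on with
  | C c =>
    refine ⟨.one, fun _ => 1, fun _ => c, fun g => ?_⟩
    rw [aeval_C]
    change algebraMap K ℂ c = (fun _ : Unit => algebraMap K ℂ 1) ⬝ᵥ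
      ((1 : Matrix Unit Unit ℂ) *ᵥ fun _ => algebraMap K ℂ c)
    rw [Matrix.one_mulVec]
    simp [dotProduct]
  | add p q hp hq =>
    obtain ⟨t, a, w, h⟩ := hp
    obtain ⟨t', a', w', h'⟩ := hq
    refine ⟨.sum t t', (Sum.elim a a' : Ix κ t ⊕ Ix κ t' → K),
      (Sum.elim w w' : Ix κ t ⊕ Ix κ t' → K), fun g => ?_⟩
    rw [map_add, h g, h' g]
    have h1 : (fun i : Ix κ t ⊕ Ix κ t' => algebraMap K ℂ ((Sum.elim w w' : Ix κ t ⊕ Ix κ t' → K) i)) =
        Sum.elim (fun i => algebraMap K ℂ (w i)) fun i => algebraMap K ℂ (w' i) := by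
      funext i
      rcases i with i | i <;> rfl
    change _ = (fun i : Ix κ t ⊕ Ix κ t' => algebraMap K ℂ ((Sum.elim a a' : Ix κ t ⊕ Ix κ t' → K) i)) ⬝ᵥ
      (bl (act (g : Matrix κ κ ℂ) t) (act (g : Matrix κ κ ℂ) t') *ᵥ
        (fun i : Ix κ t ⊕ Ix κ t' => algebraMap K ℂ ((Sum.elim w w' : Ix κ t ⊕ Ix κ t' → K) i)))
    rw [h1, bl_vec, dotProduct, dotProduct, dotProduct, Fintype.sum_sum_type]
    rfl
  | mul_X p x hp =>
    obtain ⟨t, a, w, h⟩ := hp
    obtain ⟨t', a', w', h'⟩ : ∃ (t' : Con) (a' w' : Ix κ t' → K),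
        ∀ g : GL κ ℂ, pt g x = (fun i => algebraMap K ℂ (a' i)) ⬝ᵥ
          (act (g : Matrix κ κ ℂ) t' *ᵥ fun i => algebraMap K ℂ (w' i)) := by
      have hsing : ∀ i : κ, (fun k : κ => algebraMap K ℂ ((Pi.single i 1 : κ → K) k)) =
          (Pi.single i 1 : κ → ℂ) := by
        intro i
        funext k
        by_cases hk : k = i
        · subst hk
          rw [Pi.single_eq_same, Pi.single_eq_same, map_one]
        · rw [Pi.single_eq_of_ne hk, Pi.single_eq_of_ne hk, map_zero]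
      rcases x with ⟨i, j⟩ | ⟨i, j⟩
      · refine ⟨.std, (Pi.single i 1 : κ → K), (Pi.single j 1 : κ → K), fun g => ?_⟩
        change (g : Matrix κ κ ℂ) i j = (fun k : κ => algebraMap K ℂ ((Pi.single i 1 : κ → K) k)) ⬝ᵥ
          ((g : Matrix κ κ ℂ) *ᵥ (fun k : κ => algebraMap K ℂ ((Pi.single j 1 : κ → K) k)))
        rw [hsing, hsing, single_dotProduct, one_mul, Matrix.mulVec_single_one]
        rfl
      · refine ⟨.dual .std, (Pi.single j 1 : κ → K), (Pi.single i 1 : κ → K), fun g => ?_⟩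
        change ((g⁻¹ : GL κ ℂ) : Matrix κ κ ℂ) i j =
          (fun k : κ => algebraMap K ℂ ((Pi.single j 1 : κ → K) k)) ⬝ᵥ
          (((g : Matrix κ κ ℂ)⁻¹).transpose *ᵥ
            (fun k : κ => algebraMap K ℂ ((Pi.single i 1 : κ → K) k)))
        rw [hsing, hsing, single_dotProduct, one_mul, Matrix.mulVec_single_one, coe_inv']
        rfl
    refine ⟨.tensor t t', fun i : Ix κ t × Ix κ t' => a i.1 * a' i.2,
      fun i : Ix κ t × Ix κ t' => w i.1 * w' i.2, fun g => ?_⟩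
    rw [map_mul, aeval_X, h g, h' g]
    change _ = (fun i : Ix κ t × Ix κ t' => algebraMap K ℂ (a i.1 * a' i.2)) ⬝ᵥ
      (kr (act (g : Matrix κ κ ℂ) t) (act (g : Matrix κ κ ℂ) t') *ᵥ
        fun i : Ix κ t × Ix κ t' => algebraMap K ℂ (w i.1 * w' i.2))
    have h1 : ∀ i : Ix κ t × Ix κ t', (kr (act (g : Matrix κ κ ℂ) t)
        (act (g : Matrix κ κ ℂ) t') *ᵥ fun i : Ix κ t × Ix κ t' =>
          algebraMap K ℂ (w i.1 * w' i.2)) i =
        (act (g : Matrix κ κ ℂ) t *ᵥ fun i => algebraMap K ℂ (w i)) i.1 *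
          (act (g : Matrix κ κ ℂ) t' *ᵥ fun i => algebraMap K ℂ (w' i)) i.2 := by
      intro i
      rw [Matrix.mulVec, Matrix.mulVec, Matrix.mulVec, dotProduct, dotProduct, dotProduct,
        Fintype.sum_prod_type, Finset.sum_mul_sum]
      refine Finset.sum_congr rfl fun j _ => Finset.sum_congr rfl fun k _ => ?_
      change act (g : Matrix κ κ ℂ) t i.1 j * act (g : Matrix κ κ ℂ) t' i.2 k *
        algebraMap K ℂ (w j * w' k) = _
      rw [map_mul]
      ring
    rw [dotProduct, dotProduct, dotProduct, Finset.sum_mul_sum, Fintype.sum_prod_type]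
    refine Finset.sum_congr rfl fun j _ => Finset.sum_congr rfl fun k _ => ?_
    rw [h1, map_mul]
    ring

/-- The complex matrix of a matrix over `K`. -/
noncomputable def gm (x : GL κ K) : GL κ ℂ := Units.map (algebraMap K ℂ).mapMatrix.toMonoidHom x

lemma gm_coe (x : GL κ K) : (gm x : Matrix κ κ ℂ) = (x : Matrix κ κ K).map (algebraMap K ℂ) := rfl

lemma gm_inv (x : GL κ K) : (gm x)⁻¹ = gm x⁻¹ := (map_inv _ _).symm

/-- The coordinates over `K`. -/
def ptK (x : GL κ K) : κ × κ ⊕ κ × κ → K :=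
  Sum.elim (fun p => (x : Matrix κ κ K) p.1 p.2) fun p => ((x⁻¹ : GL κ K) : Matrix κ κ K) p.1 p.2

lemma pt_gm (x : GL κ K) : pt (gm x) = algebraMap K ℂ ∘ ptK x := by
  funext i
  rcases i with i | i
  · rfl
  · change (((gm x)⁻¹ : GL κ ℂ) : Matrix κ κ ℂ) i.1 i.2 = _
    rw [gm_inv]
    rfl

/-- **The `K`-points are dense.** -/
theorem dens [IsAlgClosed K] {T : Set (GL κ ℂ)} {S : Set (MvPolynomial (κ × κ ⊕ κ × κ) K)}
    (hS : ∀ g : GL κ ℂ, g ∈ T ↔ ∀ f ∈ S, aeval (pt g) f = 0)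
    {F : MvPolynomial (κ × κ ⊕ κ × κ) K}
    (h : ∀ x : GL κ K, gm x ∈ T → aeval (pt (gm x)) F = 0) {g : GL κ ℂ} (hg : g ∈ T) :
    aeval (pt g) F = 0 := by
  let R : Set (MvPolynomial (κ × κ ⊕ κ × κ) K) :=
    {f | ∃ i j : κ, f = ∑ k, X (Sum.inl (i, k)) * X (Sum.inr (k, j)) - C ((1 : Matrix κ κ K) i j)}
  have hF : F ∈ (Ideal.span (S ∪ R)).radical := by
    rw [← vanishingIdeal_zeroLocus_eq_radical (K := K)]
    intro x hx
    rw [zeroLocus_span] at hx
    let A : Matrix κ κ K := Matrix.of fun i j => x (Sum.inl (i, j))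
    let B : Matrix κ κ K := Matrix.of fun i j => x (Sum.inr (i, j))
    have hAB : A * B = 1 := by
      ext i j
      have h1 := hx (∑ k, X (Sum.inl (i, k)) * X (Sum.inr (k, j)) - C ((1 : Matrix κ κ K) i j))
        (Or.inr ⟨i, j, rfl⟩)
      rw [map_sub, map_sum, aeval_C, sub_eq_zero] at h1
      rw [Matrix.mul_apply]
      refine Eq.trans ?_ h1
      refine Finset.sum_congr rfl fun k _ => ?_
      rw [map_mul, aeval_X, aeval_X]
      rfl
    let y : GL κ K := ⟨A, B, hAB, mul_eq_one_comm.1 hAB⟩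
    have hpt : ptK y = x := by
      funext p
      rcases p with p | p <;> rfl
    have hyT : gm y ∈ T := by
      rw [hS, pt_gm, hpt]
      intro f hf
      rw [aeval_algebraMap_apply, hx f (Or.inl hf), map_zero]
    have h2 := h y hyT
    rw [pt_gm, hpt, aeval_algebraMap_apply] at h2
    exact (algebraMap K ℂ).injective (h2.trans (map_zero _).symm)
  obtain ⟨n, hn⟩ := hF
  have h1 : ∀ f ∈ Ideal.span (S ∪ R), aeval (pt g) f = 0 := by
    intro f hf
    induction hf using Submodule.span_induction with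
    | mem f h =>
      rcases h with h | ⟨i, j, rfl⟩
      · exact (hS g).1 hg f h
      · rw [map_sub, map_sum, aeval_C, sub_eq_zero]
        have h2 := congrFun (congrFun (gl_mul_inv g) i) j
        rw [Matrix.mul_apply] at h2
        have h3 : algebraMap K ℂ ((1 : Matrix κ κ K) i j) = (1 : Matrix κ κ ℂ) i j := by
          rw [Matrix.one_apply, Matrix.one_apply]
          split_ifs
          · exact map_one _
          · exact map_zero _
        rw [h3, ← h2]
        refine Finset.sum_congr rfl fun k _ => ?_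
        rw [map_mul, aeval_X, aeval_X]
        rfl
    | zero => exact map_zero _
    | add a b _ _ ha hb => rw [map_add, ha, hb, add_zero]
    | smul c a _ ha => rw [smul_eq_mul, map_mul, ha, mul_zero]
  have h2 := h1 _ hn
  rw [map_pow] at h2
  exact (pow_eq_zero_iff (n := n) fun h0 => by
    rw [h0, pow_zero] at h2
    exact one_ne_zero h2).1 h2

end Pool.Agent.Q60.RK
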