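import Pool.Agent.Q60.RK.Tor

/-!
# The smallest subtorsor over `K`
-/

set_option linter.unusedSectionVars false

namespace Pool.Agent.Q60.RK

open MvPolynomial Matrix Module Pool.Agent.Q60.RB

variable {κ : Type} [Fintype κ] [DecidableEq κ] {K : Type} [Field K] [Algebra K ℂ] {P : GL κ ℂ}

/-- The complex span of a subspace over `K` is given by the linear forms over `K` which vanish on the
subspace. -/
lemma mem_cspan_iff {B : Type} [Fintype B] [DecidableEq B] {N : Submodule K (B → K)} {x : B → ℂ} :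
    x ∈ cspan N ↔ ∀ b : B → K, (∀ v ∈ N, b ⬝ᵥ v = 0) →
      (fun i => algebraMap K ℂ (b i)) ⬝ᵥ x = 0 := by
  constructor
  · intro hx b hb
    induction hx using Submodule.span_induction with
    | mem x h =>
      obtain ⟨v, hv, rfl⟩ := h
      have h2 : (fun i => algebraMap K ℂ (b i)) ⬝ᵥ (fun i => algebraMap K ℂ (v i)) =
          algebraMap K ℂ (b ⬝ᵥ v) := by
        rw [dotProduct, dotProduct, map_sum]
        refine Finset.sum_congr rfl fun i _ => ?_
        rw [map_mul]
      rw [h2, hb v hv, map_zero]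
    | zero => rw [dotProduct_zero]
    | add x y _ _ hx hy => rw [dotProduct_add, hx, hy, add_zero]
    | smul c x _ hx => rw [dotProduct_smul, hx, smul_zero]
  · intro h
    refine mem_cspan fun l => ?_
    by_contra hcon
    obtain ⟨f, hf, hf'⟩ := Submodule.exists_le_ker_of_notMem hcon
    have hfb : ∀ v : B → K, f v = (fun i => f (Pi.single i 1)) ⬝ᵥ v := by
      intro v
      have h1 := LinearMap.pi_apply_eq_sum_univ f v
      rw [h1, dotProduct]
      refine Finset.sum_congr rfl fun i _ => ?_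
      rw [smul_eq_mul, mul_comm]
      congr 2
      funext j
      rw [Pi.single_apply]
      congr 1
      exact propext ⟨fun h => h.symm, fun h => h.symm⟩
    apply hf
    rw [hfb, form_dot, h _ fun v hv => ?_, map_zero]
    rw [← hfb]
    exact hf' hv

/-- The action of matrices over `K`. -/
lemma act_gm (x : GL κ K) (t : Con) : act (gm x : Matrix κ κ ℂ) t =
    (act (x : Matrix κ κ K) t).map (algebraMap K ℂ) := by
  have h1 : (x : Matrix κ κ K) * ((x⁻¹ : GL κ K) : Matrix κ κ K) = 1 := by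
    rw [← Units.val_mul, mul_inv_cancel, Units.val_one]
  have key : ∀ (t : Con) (x y : Matrix κ κ K), x * y = 1 →
      act (x.map (algebraMap K ℂ)) t = (act x t).map (algebraMap K ℂ) := by
    intro t
    induction t with
    | one =>
      intro x y _
      exact (by ext i j; simp :
        (1 : Matrix Unit Unit ℂ) = (1 : Matrix Unit Unit K).map (algebraMap K ℂ))
    | std => exact fun x y _ => rfl
    | dual t ih =>
      intro x y hxy
      have hyx : y * x = 1 := mul_eq_one_comm.1 hxy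
      have h2 : x.map (algebraMap K ℂ) * y.map (algebraMap K ℂ) = 1 := by
        rw [← Matrix.map_mul, hxy, Matrix.map_one _ (map_zero _) (map_one _)]
      change ((act (x.map (algebraMap K ℂ)) t)⁻¹).transpose =
        (((act x t)⁻¹).transpose).map (algebraMap K ℂ)
      rw [act_inv h2, act_inv hxy, ih y x hyx]
      rfl
    | tensor t s iht ihs =>
      intro x y hxy
      refine (congrArg₂ kr (iht x y hxy) (ihs x y hxy)).trans ?_
      change kr _ _ = (kr (act x t) (act x s)).map (algebraMap K ℂ)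
      ext ⟨i, i'⟩ ⟨j, j'⟩
      simp
    | sum t s iht ihs =>
      intro x y hxy
      refine (congrArg₂ bl (iht x y hxy) (ihs x y hxy)).trans ?_
      change bl _ _ = (bl (act x t) (act x s)).map (algebraMap K ℂ)
      ext (i | i) (j | j) <;> simp
  rw [gm_coe]
  exact key t _ _ h1

lemma gm_mulVec (x : GL κ K) {t : Con} (v : Ix κ t → K) : act (gm x : Matrix κ κ ℂ) t *ᵥ
    (fun i => algebraMap K ℂ (v i)) = fun i => algebraMap K ℂ ((act (x : Matrix κ κ K) t *ᵥ v) i) := by
  rw [act_gm]
  funext i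
  rw [Matrix.mulVec, Matrix.mulVec, dotProduct, dotProduct, map_sum]
  refine Finset.sum_congr rfl fun j _ => ?_
  rw [map_mul, Matrix.map_apply]

/-- Inclusions suffice. -/
lemma carries_iff {f : GL κ ℂ} {t : Con} {N' N : Submodule K (Ix κ t → K)}
    (h : CarriesK P t N' N) : CarriesK f t N' N ↔
      (cspan N').map (act (f : Matrix κ κ ℂ) t).mulVecLin ≤ cspan N := by
  refine ⟨fun h1 => h1.le, fun h1 => ?_⟩
  have hinj : ∀ g : GL κ ℂ, Function.Injective (act (g : Matrix κ κ ℂ) t).mulVecLin := by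
    intro g x y hxy
    have h2 : act (g : Matrix κ κ ℂ) t *ᵥ x = act (g : Matrix κ κ ℂ) t *ᵥ y := hxy
    have h3 := congrArg (fun z => act ((g⁻¹ : GL κ ℂ) : Matrix κ κ ℂ) t *ᵥ z) h2
    simp only [Matrix.mulVec_mulVec] at h3
    rwa [act_mul_inv (gl_inv_mul g), Matrix.one_mulVec, Matrix.one_mulVec] at h3
  have hd : ∀ g : GL κ ℂ, finrank ℂ ((cspan N').map (act (g : Matrix κ κ ℂ) t).mulVecLin) =
      finrank ℂ (cspan N') := fun g =>
    (LinearEquiv.finrank_eq (Submodule.equivMapOfInjective _ (hinj g) (cspan N'))).symm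
  refine Submodule.eq_of_le_of_finrank_eq h1 ?_
  rw [hd f, ← hd P, h]

/-- **The torsor of the subobjects over `K` is a `K`-subtorsor.** -/
theorem isSubtorsor_torsorK : IsSubtorsor K (torsorK K P) := by
  constructor
  · choose F hF using fun (t : Con) (b v : Ix κ t → K) => coeff_poly (κ := κ) (K := K) b v
    refine ⟨{f | ∃ (t : Con) (N' N : Submodule K (Ix κ t → K)) (b v : Ix κ t → K),
      CarriesK P t N' N ∧ (∀ w ∈ N, b ⬝ᵥ w = 0) ∧ v ∈ N' ∧ f = F t b v}, fun g => ?_⟩
    constructor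
    · rintro hg f ⟨t, N', N, b, v, h, hb, hv, rfl⟩
      rw [hF]
      have h1 : act (g : Matrix κ κ ℂ) t *ᵥ (fun i => algebraMap K ℂ (v i)) ∈ cspan N := by
        rw [← hg t N' N h]
        exact ⟨_, cspan_mem hv, rfl⟩
      exact mem_cspan_iff.1 h1 b hb
    · intro hg t N' N h
      rw [carries_iff h, Submodule.map_le_iff_le_comap]
      rw [cspan, Submodule.span_le]
      rintro _ ⟨v, hv, rfl⟩
      change act (g : Matrix κ κ ℂ) t *ᵥ (fun i => algebraMap K ℂ (v i)) ∈ cspan N
      rw [mem_cspan_iff]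
      intro b hb
      have h1 := hg _ ⟨t, N', N, b, v, h, hb, hv, rfl⟩
      rwa [hF] at h1
  · intro x hx y hy z hz t N' N h
    have h1 := hx t N' N h
    have h2 := hy t N' N h
    have h3 := hz t N' N h
    have h4 : (act ((x * y⁻¹ * z : GL κ ℂ) : Matrix κ κ ℂ) t).mulVecLin =
        (act (x : Matrix κ κ ℂ) t).mulVecLin ∘ₗ (act ((y⁻¹ : GL κ ℂ) : Matrix κ κ ℂ) t).mulVecLin ∘ₗ
          (act (z : Matrix κ κ ℂ) t).mulVecLin := by
      rw [← Matrix.mulVecLin_mul, ← Matrix.mulVecLin_mul, ← act_mul, ← act_mul, ← Units.val_mul,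
        ← Units.val_mul, ← mul_assoc]
    have h5 : (act ((y⁻¹ : GL κ ℂ) : Matrix κ κ ℂ) t).mulVecLin ∘ₗ
        (act (y : Matrix κ κ ℂ) t).mulVecLin = LinearMap.id := by
      rw [← Matrix.mulVecLin_mul, act_mul_inv (gl_inv_mul y), Matrix.mulVecLin_one]
    rw [CarriesK] at h1 h2 h3 ⊢
    have h6 : (cspan N).map (act ((y⁻¹ : GL κ ℂ) : Matrix κ κ ℂ) t).mulVecLin = cspan N' := by
      rw [← h2, ← Submodule.map_comp, h5, Submodule.map_id]
    rw [h4, Submodule.map_comp, Submodule.map_comp, h3, h6, h1]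

/-- **Every `K`-subtorsor which contains the period matrix contains the torsor of the
subobjects.** -/
theorem torsorK_le_of [IsAlgClosed K] {T : Set (GL κ ℂ)} (hT : IsSubtorsor K T) (hP : P ∈ T) :
    torsorK K P ⊆ T := by
  obtain ⟨⟨S, hS⟩, hmul⟩ := hT
  intro h hh
  rw [hS]
  intro f hf
  obtain ⟨t, a, w, hw⟩ := poly_repK f
  rw [hw]
  -- the vectors all of whose coefficients vanish on `T`
  let N' : Submodule K (Ix κ t → K) :=
    { carrier := {v | ∀ g ∈ T, (fun i => algebraMap K ℂ (a i)) ⬝ᵥ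
        (act (g : Matrix κ κ ℂ) t *ᵥ fun i => algebraMap K ℂ (v i)) = 0}
      add_mem' := by
        intro x y hx hy g hg
        have h1 : (fun i => algebraMap K ℂ ((x + y) i)) = (fun i => algebraMap K ℂ (x i)) +
            fun i => algebraMap K ℂ (y i) := funext fun i => map_add _ _ _
        rw [h1, Matrix.mulVec_add, dotProduct_add, hx g hg, hy g hg, add_zero]
      zero_mem' := by
        intro g hg
        have h1 : (fun i => algebraMap K ℂ ((0 : Ix κ t → K) i)) = 0 := funext fun i => map_zero _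
        rw [h1, Matrix.mulVec_zero, dotProduct_zero]
      smul_mem' := by
        intro c x hx g hg
        have h1 : (fun i => algebraMap K ℂ ((c • x) i)) = algebraMap K ℂ c •
            (fun i => algebraMap K ℂ (x i)) := funext fun i => map_mul _ _ _
        rw [h1, Matrix.mulVec_smul, dotProduct_smul, hx g hg, smul_zero] }
  let N : Submodule K (Ix κ t → K) :=
    { carrier := {v | ∀ g ∈ T, ∀ g' ∈ T, (fun i => algebraMap K ℂ (a i)) ⬝ᵥ
        (act ((g * g'⁻¹ : GL κ ℂ) : Matrix κ κ ℂ) t *ᵥ fun i => algebraMap K ℂ (v i)) = 0}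
      add_mem' := by
        intro x y hx hy g hg g' hg'
        have h1 : (fun i => algebraMap K ℂ ((x + y) i)) = (fun i => algebraMap K ℂ (x i)) +
            fun i => algebraMap K ℂ (y i) := funext fun i => map_add _ _ _
        rw [h1, Matrix.mulVec_add, dotProduct_add, hx g hg g' hg', hy g hg g' hg', add_zero]
      zero_mem' := by
        intro g hg g' hg'
        have h1 : (fun i => algebraMap K ℂ ((0 : Ix κ t → K) i)) = 0 := funext fun i => map_zero _
        rw [h1, Matrix.mulVec_zero, dotProduct_zero]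
      smul_mem' := by
        intro c x hx g hg g' hg'
        have h1 : (fun i => algebraMap K ℂ ((c • x) i)) = algebraMap K ℂ c •
            (fun i => algebraMap K ℂ (x i)) := funext fun i => map_mul _ _ _
        rw [h1, Matrix.mulVec_smul, dotProduct_smul, hx g hg g' hg', smul_zero] }
  -- the complex spans
  have hN'1 : ∀ x ∈ cspan N', ∀ g ∈ T, (fun i => algebraMap K ℂ (a i)) ⬝ᵥ
      (act (g : Matrix κ κ ℂ) t *ᵥ x) = 0 := by
    intro x hx g hg
    induction hx using Submodule.span_induction with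
    | mem x h =>
      obtain ⟨v, hv, rfl⟩ := h
      exact hv g hg
    | zero => rw [Matrix.mulVec_zero, dotProduct_zero]
    | add x y _ _ hx hy => rw [Matrix.mulVec_add, dotProduct_add, hx, hy, add_zero]
    | smul c x _ hx => rw [Matrix.mulVec_smul, dotProduct_smul, hx, smul_zero]
  have hN1 : ∀ x ∈ cspan N, ∀ g ∈ T, ∀ g' ∈ T, (fun i => algebraMap K ℂ (a i)) ⬝ᵥ
      (act ((g * g'⁻¹ : GL κ ℂ) : Matrix κ κ ℂ) t *ᵥ x) = 0 := by
    intro x hx g hg g' hg'
    induction hx using Submodule.span_induction with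
    | mem x h =>
      obtain ⟨v, hv, rfl⟩ := h
      exact hv g hg g' hg'
    | zero => rw [Matrix.mulVec_zero, dotProduct_zero]
    | add x y _ _ hx hy => rw [Matrix.mulVec_add, dotProduct_add, hx, hy, add_zero]
    | smul c x _ hx => rw [Matrix.mulVec_smul, dotProduct_smul, hx, smul_zero]
  have hgmv : ∀ (x : GL κ K) (v : Ix κ t → K), act (gm x : Matrix κ κ ℂ) t *ᵥ
      (fun i => algebraMap K ℂ (v i)) = fun i => algebraMap K ℂ ((act (x : Matrix κ κ K) t *ᵥ v) i) :=
    fun x v => gm_mulVec x v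
  have hN'2 : ∀ x : Ix κ t → ℂ, (∀ g ∈ T, (fun i => algebraMap K ℂ (a i)) ⬝ᵥ
      (act (g : Matrix κ κ ℂ) t *ᵥ x) = 0) → x ∈ cspan N' := by
    intro x hx
    refine mem_cspan fun l => ?_
    intro g hg
    obtain ⟨F, hF⟩ := coeff_poly (κ := κ) a fun i => l (x i)
    rw [← hF]
    refine dens hS (fun y hy => ?_) hg
    rw [hF, hgmv]
    have h1 := hx _ hy
    have h2 : (fun i => algebraMap K ℂ (a i)) ⬝ᵥ (fun i => algebraMap K ℂ
        ((act (y : Matrix κ κ K) t *ᵥ fun i => l (x i)) i)) =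
        algebraMap K ℂ (a ⬝ᵥ (act (y : Matrix κ κ K) t *ᵥ fun i => l (x i))) := by
      rw [dotProduct, dotProduct, map_sum]
      refine Finset.sum_congr rfl fun i _ => ?_
      rw [map_mul]
    rw [h2, form_mulVec, form_dot]
    have h3 : (act (y : Matrix κ κ K) t).map (algebraMap K ℂ) = act (gm y : Matrix κ κ ℂ) t :=
      (act_gm y t).symm
    rw [h3, h1, map_zero, map_zero]
  -- a point over `K`
  obtain ⟨x₀, hx₀⟩ : ∃ x : GL κ K, gm x ∈ T := by
    by_contra hcon
    push Not at hcon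
    have h1 := dens (F := 1) hS (fun y hy => absurd hy (hcon y)) hP
    rw [map_one] at h1
    exact one_ne_zero h1
  -- `P` carries `N'` to `N`
  have hc : CarriesK P t N' N := by
    refine le_antisymm ?_ ?_
    · rintro _ ⟨x, hx, rfl⟩
      change act (P : Matrix κ κ ℂ) t *ᵥ x ∈ cspan N
      -- first `x₀⁻¹ P x` lies in the span of `N'`
      have h1 : act (((gm x₀)⁻¹ * P : GL κ ℂ) : Matrix κ κ ℂ) t *ᵥ x ∈ cspan N' := by
        refine hN'2 _ fun g hg => ?_
        rw [Matrix.mulVec_mulVec, ← act_mul, ← Units.val_mul, ← mul_assoc]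
        exact hN'1 x hx _ (hmul g hg _ hx₀ P hP)
      have h2 : act (P : Matrix κ κ ℂ) t *ᵥ x = act (gm x₀ : Matrix κ κ ℂ) t *ᵥ
          (act (((gm x₀)⁻¹ * P : GL κ ℂ) : Matrix κ κ ℂ) t *ᵥ x) := by
        rw [Matrix.mulVec_mulVec, ← act_mul, ← Units.val_mul, mul_inv_cancel_left]
      rw [h2]
      generalize act (((gm x₀)⁻¹ * P : GL κ ℂ) : Matrix κ κ ℂ) t *ᵥ x = y at h1
      induction h1 using Submodule.span_induction with
      | mem y h =>
        obtain ⟨v, hv, rfl⟩ := h
        rw [hgmv]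
        refine cspan_mem fun g hg g' hg' => ?_
        rw [← hgmv, Matrix.mulVec_mulVec, ← act_mul, ← Units.val_mul]
        exact hv _ (hmul g hg g' hg' _ hx₀)
      | zero => rw [Matrix.mulVec_zero]; exact Submodule.zero_mem _
      | add x y _ _ hx hy => rw [Matrix.mulVec_add]; exact Submodule.add_mem _ hx hy
      | smul c x _ hx => rw [Matrix.mulVec_smul]; exact Submodule.smul_mem _ c hx
    · intro x hx
      refine ⟨act ((P⁻¹ : GL κ ℂ) : Matrix κ κ ℂ) t *ᵥ x, hN'2 _ fun g hg => ?_, ?_⟩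
      · rw [Matrix.mulVec_mulVec, ← act_mul, ← Units.val_mul]
        exact hN1 x hx g hg P hP
      · change act (P : Matrix κ κ ℂ) t *ᵥ (act ((P⁻¹ : GL κ ℂ) : Matrix κ κ ℂ) t *ᵥ x) = x
        rw [Matrix.mulVec_mulVec, act_mul_inv (gl_mul_inv P), Matrix.one_mulVec]
  have hwN : w ∈ N' := by
    intro g hg
    rw [← hw]
    exact (hS g).1 hg f hf
  have h1 : act (h : Matrix κ κ ℂ) t *ᵥ (fun i => algebraMap K ℂ (w i)) ∈ cspan N := by
    rw [← hh t N' N hc]
    exact ⟨_, cspan_mem hwN, rfl⟩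
  have h2 := hN1 _ h1 P hP P hP
  rw [mul_inv_cancel, Units.val_one, RB.act_one, Matrix.one_mulVec] at h2
  exact h2

/-- **The smallest `K`-subtorsor is the torsor of the subobjects over `K`.** -/
theorem smallest_eq [IsAlgClosed K] : smallest K P = torsorK K P := by
  refine subset_antisymm (fun f hf => hf _ isSubtorsor_torsorK fun _ _ _ h => h) ?_
  intro f hf T hT hP
  exact torsorK_le_of hT hP hf

end Pool.Agent.Q60.RK
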